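import Pool.Agent.W_42fc02_h7.Deg

/-!
# Counting reducible members of a linear family of polynomials in two variables

For coprime `u`, `d` with `d ≠ 0`, the number of `s` in the box `B m n` for which `u + d * s` is not
irreducible is at most `q + (m + Dx) * (n + Dy) * q ^ (m * n - min m n + 2)`.
-/

set_option autoImplicit false

open Polynomial
open scoped Polynomial.Bivariate

namespace Pool.Agent.W_42fc02_h7

section

variable {k : Type*} [Field k]

theorem ncard_B (m n : ℕ) : (B k m n : Set k[X][Y]).ncard = Nat.card k ^ (m * n) := by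
  rw [← card_B k m n, Set.ncard_def, Set.encard, Nat.card]
  rfl

variable [Finite k]

theorem finite_B (m n : ℕ) : (B k m n : Set k[X][Y]).Finite := by
  have : Finite (B k m n) := inferInstance
  exact Set.toFinite (B k m n : Set k[X][Y])

theorem ncard_mult_le {A : k[X][Y]} (hA : A ≠ 0) (m n : ℕ) :
    {s | s ∈ B k m n ∧ A ∣ s}.ncard ≤ Nat.card k ^ ((m - dX A) * (n - dY A)) := by
  have hsub : {s | s ∈ B k m n ∧ A ∣ s} ⊆
      (fun e => A * e) '' (B k (m - dX A) (n - dY A) : Set k[X][Y]) := by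
    rintro s ⟨hs, e, rfl⟩
    exact ⟨e, mem_B_of_mul hA hs, rfl⟩
  calc {s | s ∈ B k m n ∧ A ∣ s}.ncard ≤
      ((fun e => A * e) '' (B k (m - dX A) (n - dY A) : Set k[X][Y])).ncard :=
        Set.ncard_le_ncard hsub ((finite_B _ _).image _)
    _ ≤ (B k (m - dX A) (n - dY A) : Set k[X][Y]).ncard := Set.ncard_image_le (finite_B _ _)
    _ = _ := ncard_B _ _

theorem ncard_SA_le {u d A : k[X][Y]} (hud : IsRelPrime u d) (hA : A ≠ 0) (m n : ℕ) :
    {s | s ∈ B k m n ∧ A ∣ u + d * s}.ncard ≤ Nat.card k ^ ((m - dX A) * (n - dY A)) := by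
  rcases Set.eq_empty_or_nonempty {s | s ∈ B k m n ∧ A ∣ u + d * s} with h0 | ⟨s₀, hs₀, hA₀⟩
  · rw [h0, Set.ncard_empty]
    exact Nat.zero_le _
  have hAd : IsRelPrime A d := by
    intro x hxA hxd
    apply hud _ hxd
    have h1 : x ∣ u + d * s₀ := hxA.trans hA₀
    exact (dvd_add_left (hxd.mul_right s₀)).1 h1
  have hsub : {s | s ∈ B k m n ∧ A ∣ u + d * s} ⊆
      (fun t => s₀ + t) '' {s | s ∈ B k m n ∧ A ∣ s} := by
    rintro s ⟨hs, hAs⟩
    refine ⟨s - s₀, ⟨sub_mem hs hs₀, ?_⟩, by ring⟩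
    have h1 : A ∣ d * (s - s₀) := by
      have : d * (s - s₀) = (u + d * s) - (u + d * s₀) := by ring
      rw [this]
      exact dvd_sub hAs hA₀
    exact hAd.dvd_of_dvd_mul_left h1
  have hfin : {s | s ∈ B k m n ∧ A ∣ s}.Finite := (finite_B m n).subset fun s hs => hs.1
  calc _ ≤ ((fun t => s₀ + t) '' {s | s ∈ B k m n ∧ A ∣ s}).ncard :=
        Set.ncard_le_ncard hsub (hfin.image _)
    _ ≤ _ := Set.ncard_image_le hfin
    _ ≤ _ := ncard_mult_le hA m n

/-- the `s` in the box such that `u + d * s` has a divisor of bidegree `(i, j)` -/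
theorem ncard_T_le {u d : k[X][Y]} (hud : IsRelPrime u d) (m n i j : ℕ) :
    {s | s ∈ B k m n ∧ ∃ A : k[X][Y], A ≠ 0 ∧ dX A = i ∧ dY A = j ∧ A ∣ u + d * s}.ncard ≤
      Nat.card k ^ ((i + 1) * (j + 1) + (m - i) * (n - j)) := by
  classical
  have hF : {A : k[X][Y] | A ≠ 0 ∧ dX A = i ∧ dY A = j}.Finite := by
    apply (finite_B (i + 1) (j + 1)).subset
    rintro A ⟨-, rfl, rfl⟩
    exact exists_mem_B A
  have hFc : hF.toFinset.card ≤ Nat.card k ^ ((i + 1) * (j + 1)) := by
    rw [← ncard_B (i + 1) (j + 1), ← Set.ncard_eq_toFinset_card _ hF]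
    apply Set.ncard_le_ncard _ (finite_B _ _)
    rintro A ⟨-, rfl, rfl⟩
    exact exists_mem_B A
  have hSf : ∀ A : k[X][Y], {s | s ∈ B k m n ∧ A ∣ u + d * s}.Finite :=
    fun A => (finite_B m n).subset fun s hs => hs.1
  have hsub : {s | s ∈ B k m n ∧ ∃ A : k[X][Y], A ≠ 0 ∧ dX A = i ∧ dY A = j ∧ A ∣ u + d * s} ⊆
      ((hF.toFinset.biUnion fun A => (hSf A).toFinset : Finset k[X][Y]) : Set k[X][Y]) := by
    rintro s ⟨hs, A, h0, h1, h2, h3⟩
    simp only [Finset.coe_biUnion, Set.mem_iUnion, Finset.mem_coe, Set.Finite.mem_toFinset]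
    exact ⟨A, ⟨h0, h1, h2⟩, hs, h3⟩
  calc _ ≤ ((hF.toFinset.biUnion fun A => (hSf A).toFinset : Finset k[X][Y]) :
          Set k[X][Y]).ncard := Set.ncard_le_ncard hsub (Finset.finite_toSet _)
    _ = (hF.toFinset.biUnion fun A => (hSf A).toFinset).card := Set.ncard_coe_finset _
    _ ≤ hF.toFinset.card * Nat.card k ^ ((m - i) * (n - j)) := by
        apply Finset.card_biUnion_le_card_mul
        intro A hA
        rw [Set.Finite.mem_toFinset] at hA
        obtain ⟨h0, h1, h2⟩ := hA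
        rw [← Set.ncard_eq_toFinset_card _ (hSf A)]
        have := ncard_SA_le hud h0 m n
        rwa [h1, h2] at this
    _ ≤ Nat.card k ^ ((i + 1) * (j + 1)) * Nat.card k ^ ((m - i) * (n - j)) :=
        Nat.mul_le_mul_right _ hFc
    _ = _ := by rw [← pow_add]

theorem expo {m n Dx Dy i j : ℕ} (hm : 4 * Dx + 8 ≤ m) (hn : 2 * Dy + 2 ≤ n)
    (hi : 2 * i < m + Dx) (hj : j < n + Dy) (hne : i ≠ 0 ∨ j ≠ 0) :
    (i + 1) * (j + 1) + (m - i) * (n - j) + min m n ≤ m * n + 2 := by
  have him : i < m := by omega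
  obtain ⟨a, rfl⟩ : ∃ a, m = i + a := ⟨m - i, by omega⟩
  rw [Nat.add_sub_cancel_left]
  rcases lt_or_ge j n with hjn | hjn
  · obtain ⟨b, rfl⟩ : ∃ b, n = j + b := ⟨n - j, by omega⟩
    rw [Nat.add_sub_cancel_left]
    have key : (i + 1) * (j + 1) + a * b + min (i + a) (j + b) ≤ (i + a) * (j + b) + 2 ↔
        i + j + min (i + a) (j + b) ≤ i * b + a * j + 1 := by
      constructor <;> intro h <;> nlinarith
    rw [key]
    rcases Nat.eq_zero_or_pos i with rfl | hi0
    · have hj0 : 1 ≤ j := by omega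
      have : a + j ≤ a * j + 1 := by nlinarith
      have := min_le_left (0 + a) (j + b)
      omega
    rcases Nat.eq_zero_or_pos j with rfl | hj0
    · have : i + b ≤ i * b + 1 := by nlinarith
      have := min_le_right (i + a) (0 + b)
      omega
    have hmin := min_le_right (i + a) (j + b)
    -- `i + 2 j + b ≤ i b + a j + 1`
    suffices i + j + (j + b) ≤ i * b + a * j + 1 by omega
    rcases le_or_gt (i + 2) a with ha | ha
    · nlinarith
    · -- `a ≤ i + 1`, `2 i < i + a + Dx`, so `i < a + Dx`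
      have h1 : i < a + Dx := by omega
      have h2 : Dx + 2 ≤ i := by omega
      have h3 : 1 ≤ b := by omega
      -- `a ≥ i - Dx + 1`
      obtain ⟨e, rfl⟩ : ∃ e, i = Dx + 2 + e := ⟨i - (Dx + 2), by omega⟩
      have h4 : e + 3 ≤ a := by omega
      nlinarith [Nat.mul_le_mul_right j h4, Nat.mul_le_mul h3 (le_refl Dx)]
  · have h0 : n - j = 0 := by omega
    rw [h0, Nat.mul_zero, Nat.add_zero]
    have h1 : 2 * (i + 1) ≤ (i + a) + Dx + 1 := by omega
    have h2 : j + 1 ≤ n + Dy := by omega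
    have h3 : 2 * (i + 1) * (j + 1) ≤ ((i + a) + Dx + 1) * (n + Dy) := Nat.mul_le_mul h1 h2
    have h4 := min_le_right (i + a) n
    set m := i + a
    have h5 : (m + Dx + 1) * (n + Dy) + 2 * n ≤ 2 * (m * n) := by
      have e1 : 2 * (Dy * m) ≤ n * m := by nlinarith
      have e2 : (Dx + 3) * n ≤ (m - 5 - 3 * Dx) * n := Nat.mul_le_mul_right _ (by omega)
      have e3 : 2 * ((Dx + 1) * Dy) ≤ (Dx + 1) * n := by nlinarith
      have e4 : (4 * Dx + 8) * n ≤ m * n := Nat.mul_le_mul_right _ hm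
      nlinarith
    nlinarith

/-- **Counting.** -/
theorem ncard_bad_le {u d : k[X][Y]} (hd : d ≠ 0) (hud : IsRelPrime u d) {m n : ℕ}
    (hm : 4 * (dX u + dX d) + 8 ≤ m) (hn : 2 * (dY u + dY d) + 2 ≤ n) :
    {s | s ∈ B k m n ∧ ¬ Irreducible (u + d * s)}.ncard * Nat.card k ^ min m n ≤
      ((m + (dX u + dX d)) * (n + (dY u + dY d)) + 1) * Nat.card k ^ (m * n + 2) := by
  classical
  set Dx := dX u + dX d with hDx
  set Dy := dY u + dY d with hDy
  set q := Nat.card k with hq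
  have hq1 : 1 ≤ q := Nat.card_pos
  set P : Finset (ℕ × ℕ) := ((Finset.range (m + Dx)) ×ˢ (Finset.range (n + Dy))).filter
    (fun ij => 2 * ij.1 < m + Dx ∧ (ij.1 ≠ 0 ∨ ij.2 ≠ 0)) with hP
  have hPc : P.card ≤ (m + Dx) * (n + Dy) := by
    calc P.card ≤ ((Finset.range (m + Dx)) ×ˢ (Finset.range (n + Dy))).card :=
          Finset.card_filter_le _ _
      _ = _ := by rw [Finset.card_product, Finset.card_range, Finset.card_range]
  let T : ℕ × ℕ → Set k[X][Y] := fun ij =>
    {s | s ∈ B k m n ∧ ∃ A : k[X][Y], A ≠ 0 ∧ dX A = ij.1 ∧ dY A = ij.2 ∧ A ∣ u + d * s}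
  have hTf : ∀ ij, (T ij).Finite := fun ij => (finite_B m n).subset fun s hs => hs.1
  let S0 : Set k[X][Y] := {s | s ∈ B k m n ∧ u + d * s ∈ B k 1 1}
  have hS0f : S0.Finite := (finite_B m n).subset fun s hs => hs.1
  have hS0 : S0.ncard ≤ q := by
    have h1 : S0.ncard = ((fun s => u + d * s) '' S0).ncard := by
      rw [Set.ncard_image_of_injective]
      intro s t h
      have : d * s = d * t := add_left_cancel h
      exact mul_left_cancel₀ hd this
    rw [h1]
    calc _ ≤ (B k 1 1 : Set k[X][Y]).ncard := by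
          apply Set.ncard_le_ncard _ (finite_B _ _)
          rintro _ ⟨s, hs, rfl⟩
          exact hs.2
      _ = q := by rw [ncard_B]; simp [hq]
  have hsub : {s | s ∈ B k m n ∧ ¬ Irreducible (u + d * s)} ⊆
      S0 ∪ ((P.biUnion fun ij => (hTf ij).toFinset : Finset k[X][Y]) : Set k[X][Y]) := by
    rintro s ⟨hs, hirr⟩
    by_cases hf : u + d * s ∈ B k 1 1
    · left
      exact ⟨hs, hf⟩
    right
    have hf0 : u + d * s ≠ 0 := fun h0 => hf (by rw [h0]; exact zero_mem _)
    have hfu : ¬ IsUnit (u + d * s) := by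
      intro hu
      apply hf
      rw [mem_B_iff hf0]
      have h1 := dX_le_of_dvd one_ne_zero (hu.dvd : (u + d * s) ∣ 1)
      have h2 := dY_le_of_dvd one_ne_zero (hu.dvd : (u + d * s) ∣ 1)
      have h3 : dX (1 : k[X][Y]) = 0 := by simp [dX]
      have h4 : dY (1 : k[X][Y]) = 0 := by simp [dY]
      omega
    have hfB : u + d * s ∈ B k (m + Dx) (n + Dy) := by
      apply add_mem
      · exact B_mono (by omega) (by omega) (exists_mem_B u)
      · by_cases hs0 : s = 0
        · rw [hs0, mul_zero]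
          exact zero_mem _
        · rw [mem_B_iff (mul_ne_zero hd hs0), dX_mul hd hs0, dY_mul hd hs0]
          have := (mem_B_iff hs0).1 hs
          omega
    have hfd := (mem_B_iff hf0).1 hfB
    have hex : ∃ A : k[X][Y], ¬ IsUnit A ∧ A ∣ u + d * s ∧ 2 * dX A ≤ dX (u + d * s) := by
      rw [irreducible_iff] at hirr
      push Not at hirr
      obtain ⟨A, C, hAC, hA, hC⟩ := hirr hfu
      have hA0 : A ≠ 0 := by
        rintro rfl
        exact hf0 (by rw [hAC, zero_mul])
      have hC0 : C ≠ 0 := by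
        rintro rfl
        exact hf0 (by rw [hAC, mul_zero])
      have hdeg : dX (u + d * s) = dX A + dX C := by
        rw [hAC, dX_mul hA0 hC0]
      rcases le_total (dX A) (dX C) with h | h
      · exact ⟨A, hA, Dvd.intro _ hAC.symm, by omega⟩
      · exact ⟨C, hC, Dvd.intro_left _ hAC.symm, by omega⟩
    obtain ⟨A, hAu, hAd, hA2⟩ := hex
    have hA0 : A ≠ 0 := fun h0 => hf0 (by rw [h0] at hAd; exact zero_dvd_iff.1 hAd)
    have hAX := dX_le_of_dvd hf0 hAd
    have hAY := dY_le_of_dvd hf0 hAd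
    simp only [Finset.coe_biUnion, Set.mem_iUnion, Finset.mem_coe, Set.Finite.mem_toFinset]
    refine ⟨(dX A, dY A), ?_, hs, A, hA0, rfl, rfl, hAd⟩
    rw [hP, Finset.mem_filter, Finset.mem_product, Finset.mem_range, Finset.mem_range]
    refine ⟨⟨by simp only; omega, by simp only; omega⟩, by simp only; omega, ?_⟩
    by_contra hcon
    push Not at hcon
    exact hAu (isUnit_of_deg hA0 hcon.1 hcon.2)
  have hmain : {s | s ∈ B k m n ∧ ¬ Irreducible (u + d * s)}.ncard ≤
      q + ∑ ij ∈ P, q ^ ((ij.1 + 1) * (ij.2 + 1) + (m - ij.1) * (n - ij.2)) := by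
    calc _ ≤ (S0 ∪ ((P.biUnion fun ij => (hTf ij).toFinset : Finset k[X][Y]) :
            Set k[X][Y])).ncard :=
          Set.ncard_le_ncard hsub (hS0f.union (Finset.finite_toSet _))
      _ ≤ S0.ncard + ((P.biUnion fun ij => (hTf ij).toFinset : Finset k[X][Y]) :
            Set k[X][Y]).ncard := Set.ncard_union_le _ _
      _ ≤ q + ∑ ij ∈ P, q ^ ((ij.1 + 1) * (ij.2 + 1) + (m - ij.1) * (n - ij.2)) := by
          apply Nat.add_le_add hS0
          rw [Set.ncard_coe_finset]
          refine Finset.card_biUnion_le.trans (Finset.sum_le_sum fun ij _ => ?_)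
          rw [← Set.ncard_eq_toFinset_card _ (hTf ij)]
          exact ncard_T_le hud m n ij.1 ij.2
  have hterm : ∀ ij ∈ P, q ^ ((ij.1 + 1) * (ij.2 + 1) + (m - ij.1) * (n - ij.2)) * q ^ min m n ≤
      q ^ (m * n + 2) := by
    intro ij hij
    rw [hP, Finset.mem_filter, Finset.mem_product, Finset.mem_range, Finset.mem_range] at hij
    rw [← pow_add]
    exact Nat.pow_le_pow_right hq1 (expo hm hn hij.2.1 hij.1.2 hij.2.2)
  have hfirst : q * q ^ min m n ≤ q ^ (m * n + 2) := by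
    rw [← pow_succ']
    apply Nat.pow_le_pow_right hq1
    have h1 : m ≤ m * n := Nat.le_mul_of_pos_right _ (by omega)
    have h2 := min_le_left m n
    omega
  calc _ ≤ (q + ∑ ij ∈ P, q ^ ((ij.1 + 1) * (ij.2 + 1) + (m - ij.1) * (n - ij.2))) *
          q ^ min m n := Nat.mul_le_mul_right _ hmain
    _ = q * q ^ min m n + ∑ ij ∈ P,
          q ^ ((ij.1 + 1) * (ij.2 + 1) + (m - ij.1) * (n - ij.2)) * q ^ min m n := by
        rw [Nat.add_mul, Finset.sum_mul]
    _ ≤ q ^ (m * n + 2) + ∑ _ij ∈ P, q ^ (m * n + 2) :=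
        Nat.add_le_add hfirst (Finset.sum_le_sum hterm)
    _ = (P.card + 1) * q ^ (m * n + 2) := by
        rw [Finset.sum_const, smul_eq_mul]
        ring
    _ ≤ _ := Nat.mul_le_mul_right _ (by omega)

end

end Pool.Agent.W_42fc02_h7
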