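import Mathlib

/-!
# Bidegrees of polynomials in two variables over a field, boxes of polynomials

Part of the work on MP_42fc02_al (abelian relative Brauer groups of `k(x,y)`).
-/

set_option autoImplicit false

open Polynomial
open scoped Polynomial.Bivariate

namespace Pool.Agent.W_42fc02_h7

section

variable {k : Type*} [Field k]

/-- the coefficient of `X ^ i * Y ^ j` -/
noncomputable def cf (p : k[X][Y]) (i j : ℕ) : k := (p.coeff j).coeff i

/-- the degree in the outer variable `Y` -/
noncomputable def dY (p : k[X][Y]) : ℕ := p.natDegree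

/-- the degree in the inner variable `X` -/
noncomputable def dX (p : k[X][Y]) : ℕ := (Bivariate.swap p).natDegree

theorem cf_swap (p : k[X][Y]) (i j : ℕ) : cf (Bivariate.swap p) i j = cf p j i := by
  unfold cf
  induction p using Polynomial.induction_on' with
  | add p q hp hq => simp only [map_add, coeff_add, hp, hq]
  | monomial n a =>
    induction a using Polynomial.induction_on' with
    | add p q hp hq =>
      rw [map_add (monomial n), map_add Bivariate.swap]
      simp only [coeff_add, hp, hq]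
    | monomial m a =>
      rw [Bivariate.swap_monomial_monomial]
      simp only [coeff_monomial]
      split_ifs <;> simp_all [coeff_monomial]

theorem ext_cf {p q : k[X][Y]} (h : ∀ i j, cf p i j = cf q i j) : p = q := by
  ext j i
  exact h i j

theorem cf_zero (i j : ℕ) : cf (0 : k[X][Y]) i j = 0 := by simp [cf]

theorem cf_add (p q : k[X][Y]) (i j : ℕ) : cf (p + q) i j = cf p i j + cf q i j := by
  simp [cf]

theorem cf_neg (p : k[X][Y]) (i j : ℕ) : cf (-p) i j = -cf p i j := by
  simp [cf]

theorem swap_ne_zero {p : k[X][Y]} (hp : p ≠ 0) : Bivariate.swap p ≠ 0 := by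
  simpa using hp

theorem dY_mul {p q : k[X][Y]} (hp : p ≠ 0) (hq : q ≠ 0) : dY (p * q) = dY p + dY q :=
  natDegree_mul hp hq

theorem dX_mul {p q : k[X][Y]} (hp : p ≠ 0) (hq : q ≠ 0) : dX (p * q) = dX p + dX q := by
  unfold dX
  rw [map_mul]
  exact natDegree_mul (swap_ne_zero hp) (swap_ne_zero hq)

theorem dY_swap (p : k[X][Y]) : dY (Bivariate.swap p) = dX p := rfl

theorem dX_swap (p : k[X][Y]) : dX (Bivariate.swap p) = dY p := by
  unfold dX dY
  rw [Bivariate.swap_swap_apply]

theorem le_dY {p : k[X][Y]} {i j : ℕ} (h : cf p i j ≠ 0) : j ≤ dY p := by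
  apply le_natDegree_of_ne_zero
  intro h0
  apply h
  simp [cf, h0]

theorem le_dX {p : k[X][Y]} {i j : ℕ} (h : cf p i j ≠ 0) : i ≤ dX p := by
  rw [← dY_swap]
  apply le_dY (i := j)
  rwa [cf_swap]

theorem exists_cf_dY {p : k[X][Y]} (hp : p ≠ 0) : ∃ i, cf p i (dY p) ≠ 0 := by
  have h : p.coeff (dY p) ≠ 0 := by
    unfold dY
    rw [coeff_natDegree]
    exact leadingCoeff_ne_zero.2 hp
  by_contra hcon
  push Not at hcon
  apply h
  ext i
  exact hcon i

theorem exists_cf_dX {p : k[X][Y]} (hp : p ≠ 0) : ∃ j, cf p (dX p) j ≠ 0 := by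
  obtain ⟨i, hi⟩ := exists_cf_dY (swap_ne_zero hp)
  refine ⟨i, ?_⟩
  rwa [cf_swap, dY_swap] at hi

theorem dX_add_le (p q : k[X][Y]) : dX (p + q) ≤ max (dX p) (dX q) := by
  unfold dX
  rw [map_add]
  exact natDegree_add_le _ _

theorem dY_add_le (p q : k[X][Y]) : dY (p + q) ≤ max (dY p) (dY q) :=
  natDegree_add_le _ _

theorem dX_add_of_lt {p q : k[X][Y]} (h : dX p < dX q) : dX (p + q) = dX q := by
  unfold dX at *
  rw [map_add]
  exact natDegree_add_eq_right_of_natDegree_lt h

theorem dY_add_of_lt {p q : k[X][Y]} (h : dY p < dY q) : dY (p + q) = dY q :=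
  natDegree_add_eq_right_of_natDegree_lt h

theorem dX_le_of_dvd {p q : k[X][Y]} (hq : q ≠ 0) (h : p ∣ q) : dX p ≤ dX q := by
  obtain ⟨r, rfl⟩ := h
  rw [dX_mul (left_ne_zero_of_mul hq) (right_ne_zero_of_mul hq)]
  omega

theorem dY_le_of_dvd {p q : k[X][Y]} (hq : q ≠ 0) (h : p ∣ q) : dY p ≤ dY q := by
  obtain ⟨r, rfl⟩ := h
  rw [dY_mul (left_ne_zero_of_mul hq) (right_ne_zero_of_mul hq)]
  omega

/-- a polynomial of bidegree `(0, 0)` is a constant -/
theorem eq_C_of_deg {p : k[X][Y]} (h1 : dX p = 0) (h2 : dY p = 0) : p = C (C (cf p 0 0)) := by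
  apply ext_cf
  intro i j
  by_cases hp : cf p i j = 0
  · rw [hp]
    by_cases h : i = 0 ∧ j = 0
    · obtain ⟨rfl, rfl⟩ := h
      simp [cf] at hp ⊢
      exact hp.symm
    · unfold cf
      rcases Nat.eq_zero_or_pos j with rfl | hj
      · have hi : i ≠ 0 := fun h0 => h ⟨h0, rfl⟩
        simp [coeff_C, hi]
      · simp [coeff_C, hj.ne']
  · have hi := le_dX hp
    have hj := le_dY hp
    have hi' : i = 0 := by omega
    have hj' : j = 0 := by omega
    subst hi' hj'
    simp [cf]

theorem isUnit_of_deg {p : k[X][Y]} (hp : p ≠ 0) (h1 : dX p = 0) (h2 : dY p = 0) :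
    IsUnit p := by
  rw [eq_C_of_deg h1 h2]
  have hc : cf p 0 0 ≠ 0 := by
    intro h0
    apply hp
    rw [eq_C_of_deg h1 h2, h0]
    simp
  exact (isUnit_C.2 (isUnit_C.2 (isUnit_iff_ne_zero.2 hc)))

/-- The polynomials with all monomials `X ^ i * Y ^ j` satisfying `i < m`, `j < n`. -/
def B (k : Type*) [Field k] (m n : ℕ) : AddSubgroup k[X][Y] where
  carrier := {p | ∀ i j, cf p i j ≠ 0 → i < m ∧ j < n}
  zero_mem' := by
    intro i j h
    exact absurd (cf_zero i j) h
  add_mem' := by
    intro p q hp hq i j h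
    by_cases h1 : cf p i j = 0
    · apply hq
      intro h2
      apply h
      rw [cf_add, h1, h2, add_zero]
    · exact hp i j h1
  neg_mem' := by
    intro p hp i j h
    apply hp
    rw [cf_neg] at h
    exact fun h0 => h (by rw [h0, neg_zero])

theorem mem_B {m n : ℕ} {p : k[X][Y]} : p ∈ B k m n ↔ ∀ i j, cf p i j ≠ 0 → i < m ∧ j < n :=
  Iff.rfl

theorem mem_B_iff {m n : ℕ} {p : k[X][Y]} (hp : p ≠ 0) : p ∈ B k m n ↔ dX p < m ∧ dY p < n := by
  rw [mem_B]
  constructor
  · intro h
    obtain ⟨j, hj⟩ := exists_cf_dX hp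
    obtain ⟨i, hi⟩ := exists_cf_dY hp
    exact ⟨(h _ _ hj).1, (h _ _ hi).2⟩
  · rintro ⟨h1, h2⟩ i j h
    exact ⟨lt_of_le_of_lt (le_dX h) h1, lt_of_le_of_lt (le_dY h) h2⟩

theorem B_mono {m n m' n' : ℕ} (h1 : m ≤ m') (h2 : n ≤ n') : B k m n ≤ B k m' n' := by
  intro p hp i j h
  have := hp i j h
  omega

theorem exists_mem_B (p : k[X][Y]) : p ∈ B k (dX p + 1) (dY p + 1) := by
  intro i j h
  have := le_dX h
  have := le_dY h
  omega

/-- `A * e` in a box implies `e` in the smaller box. -/
theorem mem_B_of_mul {m n : ℕ} {A e : k[X][Y]} (hA : A ≠ 0) (h : A * e ∈ B k m n) :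
    e ∈ B k (m - dX A) (n - dY A) := by
  by_cases he : e = 0
  · rw [he]; exact zero_mem _
  · rw [mem_B_iff he]
    rw [mem_B_iff (mul_ne_zero hA he), dX_mul hA he, dY_mul hA he] at h
    omega

/-- the box as a space of coefficient functions -/
noncomputable def boxEquiv (k : Type*) [Field k] (m n : ℕ) : B k m n ≃ (Fin m → Fin n → k) where
  toFun p := fun i j => cf (p : k[X][Y]) i j
  invFun f := ⟨∑ i : Fin m, ∑ j : Fin n, monomial (j : ℕ) (monomial (i : ℕ) (f i j)), by
    refine sum_mem fun i _ => sum_mem fun j _ => ?_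
    intro i' j' h
    unfold cf at h
    rw [coeff_monomial] at h
    split_ifs at h with h1
    · rw [coeff_monomial] at h
      split_ifs at h with h2
      · have := i.2
        have := j.2
        omega
      · exact absurd rfl h
    · exact absurd (by simp) h⟩
  left_inv p := by
    apply Subtype.ext
    apply ext_cf
    intro i' j'
    unfold cf
    simp only [finsetSum_coeff]
    have key : ∀ (i : Fin m) (j : Fin n),
        ((monomial (j : ℕ) (monomial (i : ℕ) (((p : k[X][Y]).coeff j).coeff i))).coeff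
          j').coeff i' = if (i : ℕ) = i' ∧ (j : ℕ) = j' then
            ((p : k[X][Y]).coeff j').coeff i' else 0 := by
      intro i j
      rw [coeff_monomial]
      by_cases h1 : (j : ℕ) = j'
      · rw [if_pos h1, coeff_monomial]
        by_cases h2 : (i : ℕ) = i'
        · rw [if_pos h2, if_pos ⟨h2, h1⟩, h1, h2]
        · rw [if_neg h2, if_neg (fun h => h2 h.1)]
      · rw [if_neg h1, if_neg (fun h => h1 h.2)]
        simp
    simp only [key]
    by_cases hz : ((p : k[X][Y]).coeff j').coeff i' = 0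
    · rw [hz]
      simp
    · have := p.2 i' j' hz
      rw [Finset.sum_eq_single (⟨i', this.1⟩ : Fin m), Finset.sum_eq_single (⟨j', this.2⟩ : Fin n)]
      · simp
      · intro b _ hb
        rw [if_neg]
        rintro ⟨-, h⟩
        exact hb (Fin.ext h)
      · simp
      · intro b _ hb
        apply Finset.sum_eq_zero
        intro j _
        rw [if_neg]
        rintro ⟨h, -⟩
        exact hb (Fin.ext h)
      · simp
  right_inv f := by
    funext i' j'
    unfold cf
    simp only [finsetSum_coeff]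
    rw [Finset.sum_eq_single i', Finset.sum_eq_single j']
    · simp
    · intro b _ hb
      rw [coeff_monomial, if_neg (fun h => hb (Fin.ext h))]
      simp
    · simp
    · intro b _ hb
      apply Finset.sum_eq_zero
      intro j _
      rw [coeff_monomial]
      split_ifs
      · rw [coeff_monomial, if_neg (fun h => hb (Fin.ext h))]
      · simp
    · simp

instance [Finite k] (m n : ℕ) : Finite (B k m n) := Finite.of_equiv _ (boxEquiv k m n).symm

theorem card_B (k : Type*) [Field k] (m n : ℕ) :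
    Nat.card (B k m n) = Nat.card k ^ (m * n) := by
  rw [Nat.card_congr (boxEquiv k m n)]
  simp [Nat.card_pi, ← pow_mul, Nat.mul_comm]

end

end Pool.Agent.W_42fc02_h7
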