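import Pool.Agent.W_42fc02_h7.Deg

/-!
# Partial derivatives of a prime polynomial in two variables over a finite field

If `p` is prime in `k[X][Y]`, `k` finite, then one of the two partial derivatives of `p` is not
divisible by `p`; and derivatives map `m ^ 2` to `m`.
-/

set_option autoImplicit false

open Polynomial
open scoped Polynomial.Bivariate

namespace Pool.Agent.W_42fc02_h7

theorem derivative_mem_of_sq {S : Type*} [CommRing S] (m : Ideal S[X]) {f : S[X]}
    (hf : f ∈ m ^ 2) : derivative f ∈ m := by
  rw [sq] at hf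
  refine Submodule.mul_induction_on hf ?_ ?_
  · intro a ha b hb
    rw [derivative_mul]
    exact add_mem (m.mul_mem_left _ hb) (m.mul_mem_right _ ha)
  · intro a b ha hb
    rw [derivative_add]
    exact add_mem ha hb

section

variable {k : Type*} [Field k]

/-- the partial derivative in the inner variable -/
noncomputable def derX (p : k[X][Y]) : k[X][Y] :=
  Bivariate.swap (derivative (Bivariate.swap p))

theorem derX_mul (a b : k[X][Y]) : derX (a * b) = derX a * b + a * derX b := by
  unfold derX
  rw [map_mul, derivative_mul, map_add, map_mul, map_mul, Bivariate.swap_swap_apply,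
    Bivariate.swap_swap_apply]

theorem derX_add (a b : k[X][Y]) : derX (a + b) = derX a + derX b := by
  unfold derX
  rw [map_add, derivative_add, map_add]

theorem derX_mem_of_sq (m : Ideal k[X][Y]) {f : k[X][Y]} (hf : f ∈ m ^ 2) : derX f ∈ m := by
  rw [sq] at hf
  refine Submodule.mul_induction_on hf ?_ ?_
  · intro a ha b hb
    rw [derX_mul]
    exact add_mem (m.mul_mem_left _ hb) (m.mul_mem_right _ ha)
  · intro a b ha hb
    rw [derX_add]
    exact add_mem ha hb

theorem coeff_derX (p : k[X][Y]) (j : ℕ) : (derX p).coeff j = derivative (p.coeff j) := by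
  ext i
  have h1 : ((derX p).coeff j).coeff i = cf (derX p) i j := rfl
  rw [h1]
  unfold derX
  rw [cf_swap]
  unfold cf
  rw [coeff_derivative, coeff_derivative]
  have h2 : ((Bivariate.swap p).coeff (i + 1)).coeff j = (p.coeff j).coeff (i + 1) := cf_swap p j (i + 1)
  have h3 : ((Bivariate.swap p).coeff (i + 1) * ((i : k[X]) + 1)).coeff j =
      ((Bivariate.swap p).coeff (i + 1)).coeff j * ((i : k) + 1) := by
    have : ((i : k[X]) + 1) = C ((i : k) + 1) := by simp
    rw [this, coeff_mul_C]
  rw [h3, h2]

theorem not_dvd_derivative {p : k[X][Y]} (h : derivative p ≠ 0) : ¬ p ∣ derivative p := by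
  intro hd
  have h1 := dY_le_of_dvd h hd
  have h2 : p.natDegree ≠ 0 := by
    intro h0
    apply h
    rw [eq_C_of_natDegree_eq_zero h0, derivative_C]
  have h3 := natDegree_derivative_lt h2
  unfold dY at h1
  omega

theorem not_dvd_derX {p : k[X][Y]} (h : derX p ≠ 0) : ¬ p ∣ derX p := by
  intro hd
  have h0 : derivative (Bivariate.swap p) ≠ 0 := by
    intro h0
    apply h
    unfold derX
    rw [h0, map_zero]
  apply not_dvd_derivative h0
  have := map_dvd (Bivariate.swap : k[X][Y] ≃ₐ[k] k[X][Y]) hd
  unfold derX at this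
  rwa [Bivariate.swap_swap_apply] at this

/-- a polynomial over a perfect field with zero derivative is a `ℓ`-th power -/
theorem exists_pow_of_derivative [Finite k] (ℓ : ℕ) [Fact ℓ.Prime] [CharP k ℓ] {f : k[X]}
    (hf : derivative f = 0) : ∃ g : k[X], g ^ ℓ = f := by
  have hℓ : ℓ ≠ 0 := (Fact.out : ℓ.Prime).ne_zero
  have h1 := expand_contract ℓ hf hℓ
  have hs : Function.Surjective (frobenius k ℓ) := by
    have := PerfectRing.ofFiniteOfIsReduced ℓ k
    exact (PerfectRing.bijective_frobenius).2
  obtain ⟨g, hg⟩ := Polynomial.map_surjective (frobenius k ℓ) hs (contract ℓ f)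
  refine ⟨g, ?_⟩
  rw [← map_frobenius_expand, map_expand, hg, h1]

theorem exists_derivative_not_dvd [Finite k] {p : k[X][Y]} (hp : Prime p) :
    ¬ p ∣ derivative p ∨ ¬ p ∣ derX p := by
  by_contra hcon
  push Not at hcon
  have h1 : derivative p = 0 := by
    by_contra h
    exact not_dvd_derivative h hcon.1
  have h2 : derX p = 0 := by
    by_contra h
    exact not_dvd_derX h hcon.2
  obtain ⟨ℓ, hℓ⟩ := CharP.exists k
  have hℓp : ℓ.Prime := CharP.char_is_prime k ℓ
  have : Fact ℓ.Prime := ⟨hℓp⟩
  have e1 := expand_contract ℓ h1 hℓp.ne_zero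
  have h3 : ∀ j, ∃ g : k[X], g ^ ℓ = (contract ℓ p).coeff j := by
    intro j
    apply exists_pow_of_derivative ℓ
    rw [coeff_contract hℓp.ne_zero, ← coeff_derX, h2, coeff_zero]
  choose g hg using h3
  have h4 : ∃ r : k[X][Y], r.map (frobenius k[X] ℓ) = contract ℓ p := by
    refine ⟨∑ j ∈ (contract ℓ p).support, monomial j (g j), ?_⟩
    rw [Polynomial.map_sum]
    conv_rhs => rw [(contract ℓ p).as_sum_support]
    refine Finset.sum_congr rfl fun j _ => ?_
    rw [map_monomial, frobenius_def, hg]
  obtain ⟨r, hr⟩ := h4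
  have h5 : r ^ ℓ = p := by
    rw [← map_frobenius_expand, map_expand, hr, e1]
  have h6 : Irreducible (r ^ ℓ) := by
    rw [h5]
    exact hp.irreducible
  exact not_irreducible_pow hℓp.ne_one h6

end

end Pool.Agent.W_42fc02_h7
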