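import Pool.Agent.W_42fc02_h7.Cnt

/-!
# Existence of polynomials with many irreducible linear combinations in a given residue class
-/

set_option autoImplicit false

open Polynomial
open scoped Polynomial.Bivariate

namespace Pool.Agent.W_42fc02_h7

theorem exists_growth (K L : ℕ) : ∃ N0 : ℕ, ∀ N : ℕ, N0 ≤ N → K * (N + L) ^ 2 + K < 2 ^ N := by
  have h1 : Filter.Tendsto (fun n : ℕ => (n : ℝ) ^ 2 / 2 ^ n) Filter.atTop (nhds 0) :=
    tendsto_pow_const_div_const_pow_of_one_lt 2 (by norm_num)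
  have h2 : Filter.Tendsto (fun n : ℕ => (n : ℝ) ^ 0 / 2 ^ n) Filter.atTop (nhds 0) :=
    tendsto_pow_const_div_const_pow_of_one_lt 0 (by norm_num)
  have hpos : (0 : ℝ) < 1 / (2 * (K + 1) * 2 ^ L) := by positivity
  obtain ⟨N1, hN1⟩ := Filter.eventually_atTop.1 (h1.eventually_lt_const hpos)
  obtain ⟨N2, hN2⟩ := Filter.eventually_atTop.1 (h2.eventually_lt_const hpos)
  refine ⟨max N1 N2, fun N hN => ?_⟩
  have e1 := hN1 (N + L) (by have := le_max_left N1 N2; omega)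
  have e2 := hN2 (N + L) (by have := le_max_right N1 N2; omega)
  have hp : (0 : ℝ) < 2 ^ (N + L) := by positivity
  have hp' : (0 : ℝ) < 2 * (K + 1) * 2 ^ L := by positivity
  rw [div_lt_div_iff₀ hp hp'] at e1 e2
  have e3 : (2 : ℝ) ^ (N + L) = 2 ^ N * 2 ^ L := pow_add _ _ _
  have hL : (0 : ℝ) < 2 ^ L := by positivity
  have e4 : ((N + L : ℕ) : ℝ) ^ 2 * (2 * (K + 1)) < 2 ^ N := by
    have : ((N + L : ℕ) : ℝ) ^ 2 * (2 * (K + 1)) * 2 ^ L < 2 ^ N * 2 ^ L := by
      rw [← e3]; linarith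
    exact lt_of_mul_lt_mul_right this hL.le
  have e5 : (1 : ℝ) * (2 * (K + 1)) < 2 ^ N := by
    have : (1 : ℝ) * (2 * (K + 1)) * 2 ^ L < 2 ^ N * 2 ^ L := by
      rw [← e3]; linarith
    exact lt_of_mul_lt_mul_right this hL.le
  have e6 : (K : ℝ) * ((N + L : ℕ) : ℝ) ^ 2 + K < 2 ^ N := by
    have h0 : (0 : ℝ) ≤ ((N + L : ℕ) : ℝ) ^ 2 := by positivity
    nlinarith
  exact_mod_cast e6

section

variable {k : Type*} [Field k]

theorem surj_box (J : Ideal k[X][Y]) [Finite (k[X][Y] ⧸ J)] :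
    ∃ N0 : ℕ, ∀ m n : ℕ, N0 ≤ m → N0 ≤ n → ∀ x : k[X][Y] ⧸ J, ∃ s ∈ B k m n,
      Ideal.Quotient.mk J s = x := by
  classical
  have := Fintype.ofFinite (k[X][Y] ⧸ J)
  choose r hr using fun x : k[X][Y] ⧸ J => Ideal.Quotient.mk_surjective x
  refine ⟨∑ x, (dX (r x) + dY (r x) + 1), fun m n hm hn x => ⟨r x, ?_, hr x⟩⟩
  have h1 : dX (r x) + dY (r x) + 1 ≤ ∑ x, (dX (r x) + dY (r x) + 1) :=
    Finset.single_le_sum (f := fun x => dX (r x) + dY (r x) + 1) (fun _ _ => Nat.zero_le _)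
      (Finset.mem_univ x)
  exact B_mono (by omega) (by omega) (exists_mem_B (r x))

theorem card_fiber [Finite k] (J : Ideal k[X][Y]) [Finite (k[X][Y] ⧸ J)] {m n : ℕ}
    (hs : ∀ x : k[X][Y] ⧸ J, ∃ s ∈ B k m n, Ideal.Quotient.mk J s = x) (s₀ : k[X][Y]) :
    {s | s ∈ B k m n ∧ s - s₀ ∈ J}.ncard * Nat.card (k[X][Y] ⧸ J) = Nat.card k ^ (m * n) := by
  let φ : B k m n →+ k[X][Y] ⧸ J :=
    (Ideal.Quotient.mk J).toAddMonoidHom.comp (B k m n).subtype
  have hφ : Function.Surjective φ := by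
    intro x
    obtain ⟨s, hs, hsx⟩ := hs x
    exact ⟨⟨s, hs⟩, hsx⟩
  have h1 := AddSubgroup.card_eq_card_quotient_mul_card_addSubgroup φ.ker
  have h2 : Nat.card (B k m n ⧸ φ.ker) = Nat.card (k[X][Y] ⧸ J) :=
    Nat.card_congr (QuotientAddGroup.quotientKerEquivOfSurjective φ hφ).toEquiv
  obtain ⟨s₁, hs₁, hs₁J⟩ := hs (Ideal.Quotient.mk J s₀)
  have h3 : {s | s ∈ B k m n ∧ s - s₀ ∈ J}.ncard = Nat.card φ.ker := by
    rw [← Nat.card_coe_set_eq]
    symm
    apply Nat.card_congr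
    refine ⟨fun t => ⟨s₁ + (t : B k m n), ?_⟩, fun s => ⟨⟨(s : k[X][Y]) - s₁, ?_⟩, ?_⟩, ?_, ?_⟩
    · refine ⟨add_mem hs₁ (t : B k m n).2, ?_⟩
      have ht : Ideal.Quotient.mk J ((t : B k m n) : k[X][Y]) = 0 := t.2
      rw [← Ideal.Quotient.eq, map_add, ht, add_zero, hs₁J]
    · exact sub_mem s.2.1 hs₁
    · show Ideal.Quotient.mk J ((s : k[X][Y]) - s₁) = 0
      rw [map_sub, hs₁J, sub_eq_zero, Ideal.Quotient.eq]
      exact s.2.2
    · intro t
      apply Subtype.ext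
      apply Subtype.ext
      simp
    · intro s
      apply Subtype.ext
      simp
  rw [h3, ← card_B k m n, h1, h2, Nat.mul_comm]

/-- **Existence.** In a residue class modulo an ideal of finite index there is `s` of large
bidegree (with prescribed residues modulo `l`) such that finitely many given `u + d * s` with
coprime `u`, `d ≠ 0` are irreducible. -/
theorem exists_good [Finite k] (J : Ideal k[X][Y]) [Finite (k[X][Y] ⧸ J)] (s₀ : k[X][Y])
    (L : Finset (k[X][Y] × k[X][Y])) (hL : ∀ p ∈ L, p.2 ≠ 0 ∧ IsRelPrime p.1 p.2)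
    {l : ℕ} (hl : 1 ≤ l) (α β N₁ : ℕ) :
    ∃ s : k[X][Y], s - s₀ ∈ J ∧ (∀ p ∈ L, Irreducible (p.1 + p.2 * s)) ∧
      dX s ≡ α [MOD l] ∧ dY s ≡ β [MOD l] ∧ N₁ ≤ dX s ∧ N₁ ≤ dY s := by
  classical
  set q := Nat.card k with hq
  have hq2 : 2 ≤ q := Finite.one_lt_card
  set c := Nat.card (k[X][Y] ⧸ J) with hc
  have hc1 : 1 ≤ c := Nat.card_pos
  obtain ⟨N0, hN0⟩ := surj_box J
  set D := ∑ p ∈ L, (dX p.1 + dX p.2 + (dY p.1 + dY p.2)) with hD
  have hDle : ∀ p ∈ L, dX p.1 + dX p.2 + (dY p.1 + dY p.2) ≤ D := fun p hp =>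
    Finset.single_le_sum (f := fun p : k[X][Y] × k[X][Y] =>
      dX p.1 + dX p.2 + (dY p.1 + dY p.2)) (fun _ _ => Nat.zero_le _) hp
  obtain ⟨N2, hN2⟩ := exists_growth (c * (2 + 2 * L.card) * q ^ 2) (l + 1 + D)
  set N := N0 + N₁ + N2 + (4 * D + 8) with hN
  have hmod : ∀ γ : ℕ, ∃ a, N ≤ a ∧ a < N + l ∧ a ≡ γ [MOD l] := by
    intro γ
    refine ⟨N + (γ + (l - N % l)) % l, by omega, ?_, ?_⟩
    · have := Nat.mod_lt (γ + (l - N % l)) (show 0 < l by omega)
      omega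
    · have h1 : N + (γ + (l - N % l)) % l ≡ N + (γ + (l - N % l)) [MOD l] :=
        Nat.ModEq.add_left N (Nat.mod_modEq _ _)
      have h2 : N + (γ + (l - N % l)) = γ + l * (N / l + 1) := by
        have := Nat.div_add_mod N l
        have := Nat.mod_lt N (show 0 < l by omega)
        rw [Nat.mul_add]
        omega
      rw [h2] at h1
      refine h1.trans ?_
      have h3 : γ + l * (N / l + 1) ≡ γ + 0 [MOD l] :=
        Nat.ModEq.add_left γ ((Nat.modEq_zero_iff_dvd).2 (Dvd.intro _ rfl))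
      simpa using h3
  obtain ⟨a, haN, hal, haα⟩ := hmod α
  obtain ⟨b, hbN, hbl, hbβ⟩ := hmod β
  by_contra hcon
  push Not at hcon
  let bad : k[X][Y] × k[X][Y] → Set k[X][Y] := fun p =>
    {s | s ∈ B k (a + 1) (b + 1) ∧ ¬ Irreducible (p.1 + p.2 * s)}
  have hbadf : ∀ p, (bad p).Finite := fun p => (finite_B (a + 1) (b + 1)).subset fun s hs => hs.1
  let G : Set k[X][Y] := {s | s ∈ B k (a + 1) (b + 1) ∧ s - s₀ ∈ J}
  have hG : G.ncard * c = q ^ ((a + 1) * (b + 1)) :=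
    card_fiber J (hN0 (a + 1) (b + 1) (by omega) (by omega)) s₀
  have hsub : G ⊆ ((L.biUnion fun p => (hbadf p).toFinset : Finset k[X][Y]) : Set k[X][Y]) ∪
      ((B k a (b + 1) : Set k[X][Y]) ∪ (B k (a + 1) b : Set k[X][Y])) := by
    rintro s ⟨hs, hsJ⟩
    by_cases h1 : s ∈ B k a (b + 1)
    · exact Or.inr (Or.inl h1)
    by_cases h2 : s ∈ B k (a + 1) b
    · exact Or.inr (Or.inr h2)
    left
    have hs0 : s ≠ 0 := fun h0 => h1 (by rw [h0]; exact zero_mem _)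
    rw [mem_B_iff hs0] at hs h1 h2
    have hda : dX s = a := by omega
    have hdb : dY s = b := by omega
    simp only [Finset.coe_biUnion, Set.mem_iUnion, Finset.mem_coe, Set.Finite.mem_toFinset]
    by_contra hnb
    push Not at hnb
    have hall : ∀ p ∈ L, Irreducible (p.1 + p.2 * s) := by
      intro p hp
      by_contra hirr
      exact hnb p hp ⟨(mem_B_iff hs0).2 hs, hirr⟩
    have := hcon s hsJ hall (by rw [hda]; exact haα) (by rw [hdb]; exact hbβ) (by omega)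
    omega
  have hcard : G.ncard ≤ ∑ p ∈ L, (bad p).ncard +
      (q ^ (a * (b + 1)) + q ^ ((a + 1) * b)) := by
    calc G.ncard ≤ (((L.biUnion fun p => (hbadf p).toFinset : Finset k[X][Y]) : Set k[X][Y]) ∪
          ((B k a (b + 1) : Set k[X][Y]) ∪ (B k (a + 1) b : Set k[X][Y]))).ncard :=
          Set.ncard_le_ncard hsub
            ((Finset.finite_toSet _).union ((finite_B _ _).union (finite_B _ _)))
      _ ≤ ((L.biUnion fun p => (hbadf p).toFinset : Finset k[X][Y]) : Set k[X][Y]).ncard +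
          ((B k a (b + 1) : Set k[X][Y]) ∪ (B k (a + 1) b : Set k[X][Y])).ncard :=
          Set.ncard_union_le _ _
      _ ≤ _ := by
          apply Nat.add_le_add
          · rw [Set.ncard_coe_finset]
            refine Finset.card_biUnion_le.trans (Finset.sum_le_sum fun p _ => ?_)
            rw [← Set.ncard_eq_toFinset_card _ (hbadf p)]
          · refine (Set.ncard_union_le _ _).trans ?_
            rw [ncard_B, ncard_B]
  set μ := min (a + 1) (b + 1) with hμ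
  have hμN : N ≤ μ := by omega
  set M := (N + (l + 1 + D)) ^ 2 with hM
  have hbadle : ∀ p ∈ L, (bad p).ncard * q ^ μ ≤ (M + 1) * q ^ ((a + 1) * (b + 1) + 2) := by
    intro p hp
    have hpD := hDle p hp
    refine (ncard_bad_le (hL p hp).1 (hL p hp).2 (m := a + 1) (n := b + 1)
      (by omega) (by omega)).trans ?_
    apply Nat.mul_le_mul_right
    apply Nat.add_le_add_right
    rw [hM, sq]
    exact Nat.mul_le_mul (by omega) (by omega)
  have hB1 : q ^ (a * (b + 1)) * q ^ μ ≤ q ^ ((a + 1) * (b + 1)) := by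
    rw [← pow_add]
    apply Nat.pow_le_pow_right (by omega)
    have := min_le_right (a + 1) (b + 1)
    rw [Nat.add_mul a 1 (b + 1)]
    omega
  have hB2 : q ^ ((a + 1) * b) * q ^ μ ≤ q ^ ((a + 1) * (b + 1)) := by
    rw [← pow_add]
    apply Nat.pow_le_pow_right (by omega)
    have := min_le_left (a + 1) (b + 1)
    rw [Nat.mul_add (a + 1) b 1]
    omega
  have hfinal : q ^ ((a + 1) * (b + 1)) * q ^ μ ≤
      (c * (L.card * (M + 1) * q ^ 2 + 2)) * q ^ ((a + 1) * (b + 1)) := by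
    calc q ^ ((a + 1) * (b + 1)) * q ^ μ = c * (G.ncard * q ^ μ) := by rw [← hG]; ring
      _ ≤ c * ((∑ p ∈ L, (bad p).ncard + (q ^ (a * (b + 1)) + q ^ ((a + 1) * b))) * q ^ μ) :=
          Nat.mul_le_mul_left _ (Nat.mul_le_mul_right _ hcard)
      _ = c * (∑ p ∈ L, (bad p).ncard * q ^ μ +
          (q ^ (a * (b + 1)) * q ^ μ + q ^ ((a + 1) * b) * q ^ μ)) := by
          rw [Nat.add_mul, Finset.sum_mul, Nat.add_mul]
      _ ≤ c * (∑ _p ∈ L, (M + 1) * q ^ ((a + 1) * (b + 1) + 2) +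
          (q ^ ((a + 1) * (b + 1)) + q ^ ((a + 1) * (b + 1)))) :=
          Nat.mul_le_mul_left _ (Nat.add_le_add (Finset.sum_le_sum hbadle)
            (Nat.add_le_add hB1 hB2))
      _ = _ := by
          rw [Finset.sum_const, smul_eq_mul, pow_add q ((a + 1) * (b + 1)) 2]
          ring
  have hcancel : q ^ μ ≤ c * (L.card * (M + 1) * q ^ 2 + 2) := by
    rw [Nat.mul_comm (q ^ ((a + 1) * (b + 1))) (q ^ μ)] at hfinal
    exact Nat.le_of_mul_le_mul_right hfinal (by positivity)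
  have hgrow := hN2 N (by omega)
  rw [← hM] at hgrow
  have hpow : 2 ^ N ≤ q ^ μ :=
    (Nat.pow_le_pow_left hq2 N).trans (Nat.pow_le_pow_right (by omega) hμN)
  have hq4 : 1 ≤ q ^ 2 := Nat.one_le_pow _ _ (by omega)
  have hbound : c * (L.card * (M + 1) * q ^ 2 + 2) ≤
      c * (2 + 2 * L.card) * q ^ 2 * M + c * (2 + 2 * L.card) * q ^ 2 := by
    have e1 : c * (L.card * (M + 1) * q ^ 2 + 2) =
        c * L.card * q ^ 2 * M + c * L.card * q ^ 2 + c * 2 * 1 := by ring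
    have e2 : c * (2 + 2 * L.card) * q ^ 2 * M + c * (2 + 2 * L.card) * q ^ 2 =
        (c * L.card * q ^ 2 * M + c * L.card * q ^ 2 + c * 2 * q ^ 2) +
          (c * L.card * q ^ 2 * M + c * 2 * q ^ 2 * M + c * L.card * q ^ 2) := by ring
    have e3 : c * 2 * 1 ≤ c * 2 * q ^ 2 := Nat.mul_le_mul_left _ hq4
    rw [e1, e2]
    omega
  omega

end

end Pool.Agent.W_42fc02_h7
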