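import Mathlib

/-!
# Tools for the ramification lemma: resolvents, fixed elements, extension of discrete valuations
-/

set_option autoImplicit false

namespace Pool.Agent.W_42fc02_h7

section Galois

variable {E L : Type*} [Field E] [Field L] [Algebra E L]

/-- Lagrange resolvent: a multiplicative character of a finite group of automorphisms with values
in the base field is a coboundary. -/
theorem exists_resolvent [FiniteDimensional E L] (N : Subgroup (L ≃ₐ[E] L))
    (c : (L ≃ₐ[E] L) → E) (hc0 : ∀ g ∈ N, c g ≠ 0)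
    (hc : ∀ g ∈ N, ∀ h ∈ N, c (g * h) = c g * c h) :
    ∃ u : L, u ≠ 0 ∧ ∀ g ∈ N, g u = algebraMap E L (c g) * u := by
  classical
  have : Fintype N := Fintype.ofFinite _
  have hlin : LinearIndependent L (fun g : N => ((((g : L ≃ₐ[E] L) : L →* L)) : L → L)) := by
    have h1 := linearIndependent_monoidHom L L
    refine h1.comp (fun g : N => ((g : L ≃ₐ[E] L) : L →* L)) ?_
    intro g h hgh
    apply Subtype.ext
    ext x
    exact DFunLike.congr_fun hgh x
  rw [Fintype.linearIndependent_iff] at hlin
  have hex : ∃ a : L, ∑ g : N, algebraMap E L (c g)⁻¹ * (g : L ≃ₐ[E] L) a ≠ 0 := by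
    by_contra hcon
    push Not at hcon
    have h1 := hlin (fun g => algebraMap E L (c g)⁻¹) (by
      funext a
      simpa using hcon a) 1
    simp only [map_eq_zero, inv_eq_zero] at h1
    exact hc0 _ (1 : N).2 h1
  obtain ⟨a, ha⟩ := hex
  refine ⟨_, ha, fun h hh => ?_⟩
  rw [map_sum, Finset.mul_sum]
  rw [← Equiv.sum_comp (Equiv.mulLeft (⟨h, hh⟩ : N))
    (fun g : N => algebraMap E L (c h) * (algebraMap E L (c g)⁻¹ * (g : L ≃ₐ[E] L) a))]
  refine Finset.sum_congr rfl fun g _ => ?_
  simp only [Equiv.coe_mulLeft, Subgroup.coe_mul, map_mul, AlgEquiv.mul_apply,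
    AlgEquiv.commutes]
  rw [hc h hh g g.2, ← mul_assoc, ← map_mul]
  congr 2
  have := hc0 h hh
  field_simp

/-- An element of a normal extension fixed by all automorphisms is purely inseparable. -/
theorem exists_pow_mem_of_fixed [FiniteDimensional E L] [Normal E L] (p : ℕ) [ExpChar E p]
    {x : L} (hx : ∀ g : L ≃ₐ[E] L, g x = x) :
    ∃ (m : ℕ) (y : E), x ^ p ^ m = algebraMap E L y := by
  have hint : IsIntegral E x := Algebra.IsIntegral.isIntegral x
  have h1 : (minpoly E x).natSepDegree = 1 := by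
    classical
    rw [Polynomial.natSepDegree_eq_of_splits (minpoly E x)
      (Normal.splits (inferInstance : Normal E L) x)]
    have h2 : ((minpoly E x).aroots L).toFinset = {x} := by
      ext y
      rw [Multiset.mem_toFinset, Finset.mem_singleton,
        Polynomial.mem_aroots]
      constructor
      · rintro ⟨-, hy⟩
        obtain ⟨σ, hσ⟩ := minpoly.exists_algEquiv_of_root' hint.isAlgebraic hy
        rw [← hσ, hx σ]
      · rintro rfl
        exact ⟨minpoly.ne_zero hint, minpoly.aeval E y⟩
    rw [h2, Finset.card_singleton]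
  obtain ⟨m, y, hy⟩ := (minpoly.natSepDegree_eq_one_iff_pow_mem p).1 h1
  exact ⟨m, y, hy.symm⟩

end Galois

section Val

variable {S E L : Type*} [CommRing S] [IsDomain S] [IsDiscreteValuationRing S] [Field E]
  [Algebra S E] [IsFractionRing S E] [Field L] [Algebra S L]

theorem exists_val :
    ∃ B : ValuationSubring L, (∀ s : S, IsUnit s → B.valuation (algebraMap S L s) = 1) ∧
      (∀ s : S, ¬ IsUnit s → B.valuation (algebraMap S L s) < 1) := by
  obtain ⟨B, h, hB⟩ := IsLocalRing.exists_factor_valuationRing (algebraMap S L)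
  refine ⟨B, ?_, ?_⟩
  · intro s hs
    have h1 : IsUnit (((algebraMap S L).codRestrict B.toSubring h) s) := hs.map _
    exact (B.valuation_eq_one_iff ⟨_, h s⟩).1 h1
  · intro s hs
    have h1 : ¬ IsUnit (((algebraMap S L).codRestrict B.toSubring h) s) :=
      fun hu => hs (hB.map_nonunit s hu)
    exact (B.valuation_lt_one_iff ⟨_, h s⟩).1 ((IsLocalRing.mem_maximalIdeal _).2 h1)

/-- every nonzero element of the fraction field is a power of the uniformizer times a unit -/
theorem exists_zpow {z : S} (hz : Irreducible z) {x : E} (hx : x ≠ 0) :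
    ∃ (a : ℤ) (u : S), IsUnit u ∧ x = algebraMap S E u * (algebraMap S E z) ^ a := by
  obtain ⟨s, t, ht, rfl⟩ := IsFractionRing.div_surjective (A := S) x
  have ht0 : t ≠ 0 := nonZeroDivisors.ne_zero ht
  have hinj : Function.Injective (algebraMap S E) := IsFractionRing.injective S E
  have hs0 : s ≠ 0 := by
    rintro rfl
    simp at hx
  obtain ⟨m, u, hu⟩ := IsDiscreteValuationRing.eq_unit_mul_pow_irreducible hs0 hz
  obtain ⟨n, v, hv⟩ := IsDiscreteValuationRing.eq_unit_mul_pow_irreducible ht0 hz
  have hz0 : algebraMap S E z ≠ 0 := by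
    rw [Ne, map_eq_zero_iff _ hinj]
    exact hz.ne_zero
  have hv0 : algebraMap S E (v : S) ≠ 0 := by
    rw [Ne, map_eq_zero_iff _ hinj]
    exact v.ne_zero
  refine ⟨(m : ℤ) - n, (u : S) * ((v⁻¹ : Sˣ) : S), (u.isUnit.mul (v⁻¹).isUnit), ?_⟩
  rw [hu, hv, map_mul, map_mul, map_mul, map_pow, map_pow, zpow_sub₀ hz0, zpow_natCast,
    zpow_natCast]
  have hvi : algebraMap S E ((v⁻¹ : Sˣ) : S) = (algebraMap S E (v : S))⁻¹ := by
    apply eq_inv_of_mul_eq_one_left
    rw [← map_mul]
    simp
  rw [hvi]
  field_simp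

end Val

end Pool.Agent.W_42fc02_h7
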