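import Pool.Agent.W_42fc02_h7.LzA

/-!
# The eigenvector decomposition in a cyclic extension of degree `l`
-/

set_option autoImplicit false

namespace Pool.Agent.W_42fc02_h7

/-- discrete Fourier inversion -/
theorem fourier {L : Type*} [Field L] {l : ℕ} (hl : 0 < l) {lam : L} (hlam : IsPrimitiveRoot lam l)
    (f : ℕ → L) {k : ℕ} (hk : k < l) :
    ∑ i ∈ Finset.range l, lam ^ (i * k) * ∑ j ∈ Finset.range l, (lam ^ (i * j))⁻¹ * f j =
      l * f k := by
  have hlam0 : lam ≠ 0 := hlam.ne_zero hl.ne'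
  simp only [Finset.mul_sum]
  rw [Finset.sum_comm]
  have key : ∀ j ∈ Finset.range l,
      ∑ i ∈ Finset.range l, lam ^ (i * k) * ((lam ^ (i * j))⁻¹ * f j) =
        if j = k then (l : L) * f k else 0 := by
    intro j hj
    rw [Finset.mem_range] at hj
    have h1 : ∀ i, lam ^ (i * k) * ((lam ^ (i * j))⁻¹ * f j) =
        (lam ^ k * (lam ^ j)⁻¹) ^ i * f j := by
      intro i
      rw [mul_pow, inv_pow, ← pow_mul, ← pow_mul, Nat.mul_comm k i, Nat.mul_comm j i, mul_assoc]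
    simp only [h1]
    rw [← Finset.sum_mul]
    split_ifs with hjk
    · subst hjk
      rw [mul_inv_cancel₀ (pow_ne_zero _ hlam0)]
      simp
    · have h2 : lam ^ k * (lam ^ j)⁻¹ ≠ 1 := by
        intro h
        apply hjk
        rw [← div_eq_mul_inv, div_eq_one_iff_eq (pow_ne_zero _ hlam0)] at h
        exact (hlam.pow_inj hk hj h).symm
      have h3 : (lam ^ k * (lam ^ j)⁻¹) ^ l = 1 := by
        rw [mul_pow, inv_pow, ← pow_mul, ← pow_mul, Nat.mul_comm k l, Nat.mul_comm j l, pow_mul,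
          pow_mul, hlam.pow_eq_one, one_pow, one_pow, inv_one, mul_one]
      have h4 := geom_sum_mul (lam ^ k * (lam ^ j)⁻¹) l
      rw [h3, sub_self] at h4
      rcases mul_eq_zero.1 h4 with h5 | h5
      · rw [h5, zero_mul]
      · exact absurd (sub_eq_zero.1 h5) h2
  rw [Finset.sum_congr rfl key, Finset.sum_ite_eq']
  rw [if_pos (Finset.mem_range.2 hk)]

section

variable {E L : Type*} [Field E] [Field L] [Algebra E L]

/-- The eigenvectors. `s` acts on `β` by the primitive `l`-th root of unity `lam ∈ E`; `x` is fixed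
by all automorphisms fixing `β`. Then `l * s ^ k x = ∑ lam ^ (i k) * (β ^ i * r i)` with all `r i`
fixed by all automorphisms. -/
theorem exists_eigen {l : ℕ} (hl : 0 < l) {lam : E} (hlam : IsPrimitiveRoot lam l) {b : E} {β : L}
    (hβ : β ^ l = algebraMap E L b) (hβ0 : β ≠ 0) {s : L ≃ₐ[E] L}
    (hs : s β = algebraMap E L lam * β) {x : L} (hx : ∀ g : L ≃ₐ[E] L, g β = β → g x = x) :
    ∃ r : ℕ → L, (∀ i (g : L ≃ₐ[E] L), g (r i) = r i) ∧
      ∀ k, k < l → ∑ i ∈ Finset.range l, (algebraMap E L lam) ^ (i * k) * (β ^ i * r i) =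
        l * (s ^ k) x := by
  classical
  have : NeZero l := ⟨hl.ne'⟩
  set μ := algebraMap E L lam with hμ
  have hμp : IsPrimitiveRoot μ l := hlam.map_of_injective (algebraMap E L).injective
  have hμ0 : μ ≠ 0 := hμp.ne_zero hl.ne'
  have hsμ : ∀ g : L ≃ₐ[E] L, g μ = μ := fun g => g.commutes lam
  have hspow : ∀ k : ℕ, (s ^ k) β = μ ^ k * β := by
    intro k
    induction k with
    | zero => simp
    | succ k ih =>
      rw [pow_succ', AlgEquiv.mul_apply, ih, map_mul, map_pow, hsμ, hs, pow_succ]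
      ring
  have hsl : (s ^ l) β = β := by rw [hspow, hμp.pow_eq_one, one_mul]
  -- every automorphism is a power of `s` times one fixing `β`
  have hdec : ∀ g : L ≃ₐ[E] L, ∃ j : ℕ, ∃ h : L ≃ₐ[E] L, g = s ^ j * h ∧ h β = β := by
    intro g
    have h1 : (g β / β) ^ l = 1 := by
      rw [div_pow, ← map_pow, hβ, AlgEquiv.commutes, div_self]
      rw [← hβ]
      exact pow_ne_zero _ hβ0
    obtain ⟨j, -, hj⟩ := hμp.eq_pow_of_pow_eq_one h1
    refine ⟨j, (s ^ j)⁻¹ * g, by group, ?_⟩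
    have h2 : g β = (s ^ j) β := by
      rw [hspow, hj, div_mul_cancel₀ _ hβ0]
    rw [AlgEquiv.mul_apply, h2, ← AlgEquiv.mul_apply, inv_mul_cancel, AlgEquiv.one_apply]
  let a : ℕ → L := fun i => ∑ j ∈ Finset.range l, (μ ^ (i * j))⁻¹ * (s ^ j) x
  have hconj : ∀ h : L ≃ₐ[E] L, h β = β → ∀ j : ℕ, h ((s ^ j) x) = (s ^ j) x := by
    intro h hh j
    have h1 : ((s ^ j)⁻¹ * h * s ^ j) β = β := by
      rw [AlgEquiv.mul_apply, AlgEquiv.mul_apply, hspow, map_mul, map_pow, hsμ, hh, map_mul,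
        map_pow, hsμ]
      have h2 : (s ^ j)⁻¹ (μ ^ j * β) = β := by
        rw [← hspow, ← AlgEquiv.mul_apply, inv_mul_cancel, AlgEquiv.one_apply]
      rw [map_mul, map_pow, hsμ] at h2
      exact h2
    have h3 := hx _ h1
    rw [AlgEquiv.mul_apply, AlgEquiv.mul_apply] at h3
    have h4 := congrArg (s ^ j) h3
    rwa [← AlgEquiv.mul_apply, mul_inv_cancel, AlgEquiv.one_apply] at h4
  have hah : ∀ h : L ≃ₐ[E] L, h β = β → ∀ i, h (a i) = a i := by
    intro h hh i
    show h (∑ j ∈ Finset.range l, (μ ^ (i * j))⁻¹ * (s ^ j) x) = _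
    rw [map_sum]
    refine Finset.sum_congr rfl fun j _ => ?_
    rw [map_mul, map_inv₀, map_pow, hsμ, hconj h hh]
  have has : ∀ i, s (a i) = μ ^ i * a i := by
    intro i
    let F : ℕ → L := fun j => (μ ^ (i * j))⁻¹ * (s ^ j) x
    have hF : F l = F 0 := by
      show (μ ^ (i * l))⁻¹ * (s ^ l) x = (μ ^ (i * 0))⁻¹ * (s ^ 0) x
      rw [Nat.mul_comm i l, pow_mul, hμp.pow_eq_one, one_pow, hx _ hsl]
      simp
    have h1 : s (a i) = μ ^ i * ∑ j ∈ Finset.range l, F (j + 1) := by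
      show s (∑ j ∈ Finset.range l, (μ ^ (i * j))⁻¹ * (s ^ j) x) = _
      rw [map_sum, Finset.mul_sum]
      refine Finset.sum_congr rfl fun j _ => ?_
      show s ((μ ^ (i * j))⁻¹ * (s ^ j) x) = μ ^ i * ((μ ^ (i * (j + 1)))⁻¹ * (s ^ (j + 1)) x)
      rw [map_mul, map_inv₀, map_pow, hsμ, ← AlgEquiv.mul_apply, ← pow_succ', Nat.mul_succ,
        pow_add μ, mul_inv]
      have h3 : μ ^ i * (μ ^ i)⁻¹ = 1 := mul_inv_cancel₀ (pow_ne_zero _ hμ0)
      linear_combination (-((μ ^ (i * j))⁻¹ * (s ^ (j + 1)) x)) * h3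
    have h2 : ∑ j ∈ Finset.range l, F (j + 1) = ∑ j ∈ Finset.range l, F j := by
      have h3 := Finset.sum_range_succ F l
      have h4 := Finset.sum_range_succ' F l
      rw [h3, hF] at h4
      exact (add_right_cancel h4).symm
    rw [h1, h2]
  have haspow : ∀ i (j : ℕ), (s ^ j) (a i) = μ ^ (i * j) * a i := by
    intro i j
    induction j with
    | zero => simp
    | succ j ih =>
      rw [pow_succ', AlgEquiv.mul_apply, ih, map_mul, map_pow, hsμ, has, Nat.mul_succ, pow_add]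
      ring
  refine ⟨fun i => a i / β ^ i, ?_, ?_⟩
  · intro i g
    obtain ⟨j, h, rfl, hh⟩ := hdec g
    rw [AlgEquiv.mul_apply, map_div₀, map_pow, hah h hh, hh, map_div₀, haspow, map_pow, hspow,
      mul_pow, ← pow_mul, Nat.mul_comm j i]
    have : μ ^ (i * j) ≠ 0 := pow_ne_zero _ hμ0
    field_simp
  · intro k hk
    have h1 := fourier hl hμp (fun j => (s ^ j) x) hk
    rw [← h1]
    refine Finset.sum_congr rfl fun i _ => ?_
    show μ ^ (i * k) * (β ^ i * (a i / β ^ i)) = _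
    rw [mul_div_cancel₀ _ (pow_ne_zero _ hβ0)]

end

end Pool.Agent.W_42fc02_h7
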