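import Pool.Agent.W_42fc02_h7.LzB

/-!
# The ramification lemma: valuation part
-/

set_option autoImplicit false

namespace Pool.Agent.W_42fc02_h7

section

variable {L Γ : Type*} [Field L] [LinearOrderedCommGroupWithZero Γ]

theorem val_prod_sub_lt (w : Valuation L Γ) {c : L} (hc : w c ≤ 1) (f : ℕ → L) (N : ℕ)
    (hf : ∀ i, i < N → w (f i - c) < 1) :
    ∀ n : ℕ, n ≤ N → w (∏ i ∈ Finset.range n, f i - c ^ n) < 1 ∧
      w (∏ i ∈ Finset.range n, f i) ≤ 1 := by
  intro n
  have hfle : ∀ i, i < N → w (f i) ≤ 1 := by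
    intro i hi
    have : f i = (f i - c) + c := by ring
    rw [this]
    exact w.map_add_le (hf i hi).le hc
  induction n with
  | zero => simp
  | succ n ih =>
    intro hn
    have ih := ih (by omega)
    constructor
    · have h1 : ∏ i ∈ Finset.range (n + 1), f i - c ^ (n + 1) =
          (∏ i ∈ Finset.range n, f i) * (f n - c) + c * (∏ i ∈ Finset.range n, f i - c ^ n) := by
        rw [Finset.prod_range_succ, pow_succ]
        ring
      rw [h1]
      apply w.map_add_lt
      · rw [map_mul]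
        exact lt_of_le_of_lt (mul_le_of_le_one_left' ih.2) (hf n (by omega))
      · rw [map_mul]
        exact lt_of_le_of_lt (mul_le_of_le_one_left' hc) ih.1
    · rw [Finset.prod_range_succ, map_mul]
      exact mul_le_one' ih.2 (hfle n (by omega))

/-- uniqueness of the residue of the normalised valuation modulo `l` -/
theorem ty_unique {l p : ℕ} (hl : l.Prime) (hlp : ¬ l ∣ p) {ϖ x : Γ} (h0 : 0 < ϖ)
    (h1 : ϖ < 1) {a : ℤ} (ha : ¬ (l : ℤ) ∣ a) {i j m m' : ℕ} {d d' : ℤ} (hi : i < l) (hj : j < l)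
    (hx : x ^ (l * p ^ m) = ϖ ^ (a * i * (p : ℤ) ^ m + l * d))
    (hx' : x ^ (l * p ^ m') = ϖ ^ (a * j * (p : ℤ) ^ m' + l * d')) : i = j := by
  have e1 : x ^ (l * p ^ m * p ^ m') = ϖ ^ ((a * i * (p : ℤ) ^ m + l * d) * (p : ℤ) ^ m') := by
    rw [pow_mul, hx, zpow_mul, ← zpow_natCast]
    push_cast
    rfl
  have e2 : x ^ (l * p ^ m' * p ^ m) = ϖ ^ ((a * j * (p : ℤ) ^ m' + l * d') * (p : ℤ) ^ m) := by
    rw [pow_mul, hx', zpow_mul, ← zpow_natCast]
    push_cast
    rfl
  have e3 : l * p ^ m * p ^ m' = l * p ^ m' * p ^ m := by ring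
  rw [e3, e2] at e1
  have e4 := zpow_right_injective₀ h0 h1.ne e1
  have e5 : (l : ℤ) ∣ a * ((i : ℤ) - j) * (p : ℤ) ^ (m + m') := by
    refine ⟨d' * (p : ℤ) ^ m - d * (p : ℤ) ^ m', ?_⟩
    rw [pow_add]
    linear_combination (-1 : ℤ) * e4
  have hlI : Prime (l : ℤ) := Nat.prime_iff_prime_int.1 hl
  rcases hlI.dvd_or_dvd e5 with h | h
  · rcases hlI.dvd_or_dvd h with h | h
    · exact absurd h ha
    · have h6 := Int.eq_zero_of_abs_lt_dvd h (by
        rw [abs_lt]
        omega)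
      omega
  · exfalso
    have h7 : (l : ℤ) ∣ (p : ℤ) := hlI.dvd_of_dvd_pow h
    exact hlp (by exact_mod_cast h7)

end

section

variable {S E L : Type*} [CommRing S] [IsDomain S] [IsDiscreteValuationRing S] [Field E]
  [Algebra S E] [IsFractionRing S E] [Field L] [Algebra E L] [Algebra S L] [IsScalarTower S E L]

/-- valuations of the elements whose `l * p ^ m`-th power is an eigenvector -/
theorem val_eig {l p : ℕ} {z : S} (hz : Irreducible z) {b : E} {β : L}
    (hβ : β ^ l = algebraMap E L b) {a : ℤ} {u : S} (hu : IsUnit u)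
    (hb : b = algebraMap S E u * (algebraMap S E z) ^ a) (B : ValuationSubring L)
    (hB : ∀ s : S, IsUnit s → B.valuation (algebraMap S L s) = 1) {i m : ℕ} {r : L} {y : E}
    (hr0 : r ≠ 0) (hry : r ^ p ^ m = algebraMap E L y) :
    ∃ (d : ℤ) (v : S), IsUnit v ∧ y = algebraMap S E v * (algebraMap S E z) ^ d ∧
      B.valuation (β ^ i * r) ^ (l * p ^ m) =
        B.valuation (algebraMap S L z) ^ (a * i * (p : ℤ) ^ m + l * d) := by
  have hy0 : y ≠ 0 := by
    rintro rfl
    rw [map_zero] at hry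
    exact pow_ne_zero _ hr0 hry
  obtain ⟨d, v, hv, hyv⟩ := exists_zpow hz hy0
  have hval : ∀ (w : S) (c : ℤ), IsUnit w →
      B.valuation (algebraMap E L (algebraMap S E w * (algebraMap S E z) ^ c)) =
        B.valuation (algebraMap S L z) ^ c := by
    intro w c hw
    rw [map_mul, map_zpow₀, ← IsScalarTower.algebraMap_apply, ← IsScalarTower.algebraMap_apply,
      map_mul, hB w hw, one_mul, map_zpow₀]
  refine ⟨d, v, hv, hyv, ?_⟩
  have h1 : (β ^ i * r) ^ (l * p ^ m) = (algebraMap E L b) ^ (i * p ^ m) * (algebraMap E L y) ^ l := by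
    rw [← hβ, ← hry, mul_pow, ← pow_mul, ← pow_mul, ← pow_mul]
    congr 2 <;> ring
  have hz0 : B.valuation (algebraMap S L z) ≠ 0 := by
    rw [Valuation.ne_zero_iff, IsScalarTower.algebraMap_apply S E L, Ne,
      map_eq_zero_iff _ (algebraMap E L).injective,
      map_eq_zero_iff _ (IsFractionRing.injective S E)]
    exact hz.ne_zero
  rw [← map_pow, h1, map_mul, map_pow, map_pow, hb, hval u a hu, hyv, hval v d hv,
    zpow_add₀ hz0, ← zpow_natCast, ← zpow_natCast, ← zpow_mul, ← zpow_mul]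
  congr 2
  · push_cast
    ring
  · ring

/-- the residual condition implies that `l` is a unit -/
theorem isUnit_of_hres {l e : ℕ} (hl : l.Prime) {ζ : S} (hζ1 : ζ ^ l ^ (e + 1) = 1)
    (hres : ∀ (v : S) (m : ℕ), m.Coprime l → IsUnit (v ^ l - ζ ^ m)) : IsUnit (l : S) := by
  by_contra hcon
  have hk0 : (l : IsLocalRing.ResidueField S) = 0 := by
    rw [← map_natCast (IsLocalRing.residue S), IsLocalRing.residue_eq_zero_iff]
    exact (IsLocalRing.mem_maximalIdeal _).2 hcon
  have : Fact l.Prime := ⟨hl⟩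
  have hchar : CharP (IsLocalRing.ResidueField S) l := by
    obtain ⟨q, hq⟩ := CharP.exists (IsLocalRing.ResidueField S)
    have h1 : q ∣ l := (CharP.cast_eq_zero_iff _ q l).1 hk0
    rcases (Nat.dvd_prime hl).1 h1 with rfl | rfl
    · refine absurd (CharP.cast_eq_zero (IsLocalRing.ResidueField S) 1) ?_
      rw [Nat.cast_one]
      exact one_ne_zero
    · exact hq
  have h2 : IsLocalRing.residue S ζ = 1 := by
    have h3 : (IsLocalRing.residue S ζ - 1) ^ l ^ (e + 1) = 0 := by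
      rw [sub_pow_char_pow, ← map_pow, hζ1, map_one, one_pow, sub_self]
    exact sub_eq_zero.1 (pow_eq_zero_iff (pow_pos hl.pos _).ne' |>.1 h3)
  have h4 := hres 1 1 (Nat.coprime_one_left l)
  have h5 : IsLocalRing.residue S ((1 : S) ^ l - ζ ^ 1) = 0 := by
    rw [one_pow, pow_one, map_sub, map_one, h2, sub_self]
  rw [IsLocalRing.residue_eq_zero_iff] at h5
  exact (IsLocalRing.mem_maximalIdeal _).1 h5 h4

theorem lz_val [FiniteDimensional E L] [Normal E L] {l e p : ℕ} (hl : l.Prime) [ExpChar E p]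
    (hlp : ¬ l ∣ p) {ζ : S} (hζS : IsPrimitiveRoot ζ (l ^ (e + 1)))
    (hres : ∀ (v : S) (m : ℕ), m.Coprime l → IsUnit (v ^ l - ζ ^ m))
    {z : S} (hz : Irreducible z) {b : E} {β : L} (hβ : β ^ l = algebraMap E L b)
    {a : ℤ} {u : S} (hu : IsUnit u) (hb : b = algebraMap S E u * (algebraMap S E z) ^ a)
    (ha : ¬ (l : ℤ) ∣ a)
    {s : L ≃ₐ[E] L} (hs : s β = algebraMap S L (ζ ^ l ^ e) * β) {x : L} (hx0 : x ≠ 0)
    (hx : ∀ g : L ≃ₐ[E] L, g β = β → g x = x) {A : ℕ} (hA : ¬ l ∣ A)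
    (hprod : ∏ k ∈ Finset.range l, (s ^ k) x = algebraMap S L (ζ ^ A)) : False := by
  classical
  have hinjE : Function.Injective (algebraMap S E) := IsFractionRing.injective S E
  have hinjL : Function.Injective (algebraMap S L) := by
    rw [IsScalarTower.algebraMap_eq S E L]
    exact (algebraMap E L).injective.comp hinjE
  have hCL : ExpChar L p := expChar_of_injective_algebraMap (algebraMap E L).injective p
  have hlu : IsUnit (l : S) := isUnit_of_hres hl hζS.pow_eq_one hres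
  have hζu : IsUnit ζ := IsUnit.of_pow_eq_one hζS.pow_eq_one (pow_pos hl.pos _).ne'
  have hlamS : IsPrimitiveRoot (ζ ^ l ^ e) l :=
    hζS.pow (pow_pos hl.pos _) (by rw [pow_succ])
  have hlam : IsPrimitiveRoot (algebraMap S E (ζ ^ l ^ e)) l := hlamS.map_of_injective hinjE
  have hβ0 : β ≠ 0 := by
    rintro rfl
    rw [zero_pow hl.ne_zero] at hβ
    have h1 := (map_eq_zero_iff _ (algebraMap E L).injective).1 hβ.symm
    rw [h1] at hb
    have hz0 : algebraMap S E z ≠ 0 := by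
      rw [Ne, map_eq_zero_iff _ hinjE]
      exact hz.ne_zero
    have hu0 : algebraMap S E u ≠ 0 := by
      rw [Ne, map_eq_zero_iff _ hinjE]
      exact hu.ne_zero
    exact mul_ne_zero hu0 (zpow_ne_zero _ hz0) hb.symm
  obtain ⟨r, hrfix, hr⟩ := exists_eigen hl.pos hlam hβ hβ0
    (by rw [hs, ← IsScalarTower.algebraMap_apply]) hx
  obtain ⟨B, hB1, hB2⟩ := exists_val (S := S) (L := L)
  set w := B.valuation with hw
  have hry : ∀ i, ∃ (m : ℕ) (y : E), r i ^ p ^ m = algebraMap E L y :=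
    fun i => exists_pow_mem_of_fixed p (hrfix i)
  have hϖ0 : 0 < w (algebraMap S L z) := by
    rw [zero_lt_iff, Valuation.ne_zero_iff, Ne, map_eq_zero_iff _ hinjL]
    exact hz.ne_zero
  have hϖ1 : w (algebraMap S L z) < 1 := hB2 z hz.not_isUnit
  -- the dominating term
  obtain ⟨i0, hi0, hmax⟩ := Finset.exists_max_image (Finset.range l) (fun i => w (β ^ i * r i))
    ⟨0, Finset.mem_range.2 hl.pos⟩
  rw [Finset.mem_range] at hi0
  have hμ : ∀ n : ℕ, w ((algebraMap E L (algebraMap S E (ζ ^ l ^ e))) ^ n) = 1 := by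
    intro n
    rw [map_pow, ← IsScalarTower.algebraMap_apply, hB1 _ (hζu.pow _), one_pow]
  have hlL : w (l : L) = 1 := by
    have := hB1 (l : S) hlu
    rwa [map_natCast] at this
  have hpos : 0 < w (β ^ i0 * r i0) := by
    rw [zero_lt_iff]
    intro h0
    have h1 := hr 0 hl.pos
    have h2 : ∑ i ∈ Finset.range l, (algebraMap E L (algebraMap S E (ζ ^ l ^ e))) ^ (i * 0) *
        (β ^ i * r i) = 0 := by
      refine Finset.sum_eq_zero fun i hi => ?_
      have h3 := hmax i hi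
      rw [h0, le_zero_iff, map_eq_zero] at h3
      rw [h3, mul_zero]
    rw [h2, pow_zero, AlgEquiv.one_apply] at h1
    have h4 : (l : L) ≠ 0 := by
      intro h5
      rw [h5, map_zero] at hlL
      exact zero_ne_one hlL
    exact mul_ne_zero h4 hx0 h1.symm
  have hr00 : r i0 ≠ 0 := by
    intro h
    rw [h, mul_zero, map_zero] at hpos
    exact lt_irrefl _ hpos
  obtain ⟨m0, y0, hy0⟩ := hry i0
  obtain ⟨d0, v0, hv0, hyv0, hval0⟩ := val_eig (i := i0) hz hβ hu hb B hB1 hr00 hy0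
  have hlt : ∀ i ∈ Finset.range l, i ≠ i0 → w (β ^ i * r i) < w (β ^ i0 * r i0) := by
    intro i hi hne
    rcases (hmax i hi).lt_or_eq with h | h
    · exact h
    · exfalso
      apply hne
      have hri : r i ≠ 0 := by
        intro h1
        rw [h1, mul_zero, map_zero] at h
        exact hpos.ne h
      obtain ⟨m, y, hy⟩ := hry i
      obtain ⟨d, v, hv, hyv, hval⟩ := val_eig (i := i) hz hβ hu hb B hB1 hri hy
      rw [← hw] at hval hval0
      rw [h] at hval
      exact ty_unique hl hlp hϖ0 hϖ1 ha (Finset.mem_range.1 hi) hi0 hval hval0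
  have hk : ∀ k, k < l → w ((l : L) * (s ^ k) x -
      (algebraMap E L (algebraMap S E (ζ ^ l ^ e))) ^ (i0 * k) * (β ^ i0 * r i0)) <
        w (β ^ i0 * r i0) := by
    intro k hkl
    rw [← hr k hkl, ← Finset.sum_erase_add _ _ (Finset.mem_range.2 hi0), add_sub_cancel_right]
    apply Valuation.map_sum_lt w hpos.ne'
    intro i hi
    rw [Finset.mem_erase] at hi
    rw [map_mul, hμ, one_mul]
    exact hlt i hi.2 hi.1
  have hkw : ∀ k, k < l → w ((l : L) * (s ^ k) x) = w (β ^ i0 * r i0) := by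
    intro k hkl
    have h1 : w ((algebraMap E L (algebraMap S E (ζ ^ l ^ e))) ^ (i0 * k) * (β ^ i0 * r i0)) =
        w (β ^ i0 * r i0) := by rw [map_mul, hμ, one_mul]
    rw [← h1]
    apply Valuation.map_eq_of_sub_lt
    rw [h1]
    exact hk k hkl
  have hprod' : ∏ k ∈ Finset.range l, ((l : L) * (s ^ k) x) =
      algebraMap S L ((l : S) ^ l * ζ ^ A) := by
    rw [Finset.prod_mul_distrib, Finset.prod_const, Finset.card_range, hprod, map_mul,
      map_pow _ (l : S), map_natCast]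
  have hunit : IsUnit ((l : S) ^ l * ζ ^ A) := (hlu.pow _).mul (hζu.pow _)
  have hw1 : w (β ^ i0 * r i0) = 1 := by
    have h1 : w (∏ k ∈ Finset.range l, ((l : L) * (s ^ k) x)) = w (β ^ i0 * r i0) ^ l := by
      rw [map_prod, Finset.prod_congr rfl (fun k hk => hkw k (Finset.mem_range.1 hk)),
        Finset.prod_const, Finset.card_range]
    rw [hprod', hB1 _ hunit] at h1
    exact (pow_eq_one_iff_of_nonneg zero_le hl.ne_zero).1 h1.symm
  have hi00 : i0 = 0 := by
    rw [← hw, hw1, one_pow] at hval0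
    refine ty_unique (x := (1 : B.ValueGroup)) (m := m0) (d := d0) (m' := 0) (d' := 0) hl
      hlp hϖ0 hϖ1 ha hi0 hl.pos ?_ ?_
    · rw [one_pow]
      exact hval0
    · simp
  subst hi00
  rw [pow_zero, one_mul] at hw1
  simp only [Nat.zero_mul, pow_zero, one_mul] at hk
  rw [hw1] at hk
  have hfin := (val_prod_sub_lt w hw1.le (fun k => (l : L) * (s ^ k) x) l hk l le_rfl).1
  rw [hprod'] at hfin
  -- raise to the power `p ^ m0`
  have hd0 : y0 = algebraMap S E v0 := by
    have h1 : w (algebraMap E L y0) = 1 := by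
      rw [← hy0, map_pow, hw1, one_pow]
    rw [hyv0, map_mul, map_zpow₀, ← IsScalarTower.algebraMap_apply,
      ← IsScalarTower.algebraMap_apply, map_mul, hB1 v0 hv0, one_mul, map_zpow₀] at h1
    have h2 : d0 = 0 := by
      have h3 : w (algebraMap S L z) ^ d0 = w (algebraMap S L z) ^ (0 : ℤ) := by
        rw [h1, zpow_zero]
      exact zpow_right_injective₀ hϖ0 hϖ1.ne h3
    rw [hyv0, h2, zpow_zero, mul_one]
  have hfin2 : w (algebraMap S L (((l : S) ^ l * ζ ^ A) ^ p ^ m0 - v0 ^ l)) < 1 := by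
    have h1 : algebraMap S L (((l : S) ^ l * ζ ^ A) ^ p ^ m0 - v0 ^ l) =
        (algebraMap S L ((l : S) ^ l * ζ ^ A) - r 0 ^ l) ^ p ^ m0 := by
      rw [sub_pow_expChar_pow, map_sub, map_pow, map_pow, ← pow_mul, Nat.mul_comm l, pow_mul, hy0,
        hd0, ← IsScalarTower.algebraMap_apply]
    rw [h1, map_pow]
    exact pow_lt_one₀ zero_le hfin (pow_pos (expChar_pos E p) _).ne'
  have hnu : ¬ IsUnit (((l : S) ^ l * ζ ^ A) ^ p ^ m0 - v0 ^ l) := by
    intro h
    rw [hB1 _ h] at hfin2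
    exact lt_irrefl _ hfin2
  -- divide by the power of `l`
  obtain ⟨ui, hui⟩ := hlu
  apply hnu
  have hc : (A * p ^ m0).Coprime l := by
    rw [Nat.coprime_comm, hl.coprime_iff_not_dvd]
    intro h
    rcases hl.dvd_mul.1 h with h | h
    · exact hA h
    · exact hlp (hl.dvd_of_dvd_pow h)
  have h1 := hres (v0 * ((ui⁻¹ : Sˣ) : S) ^ p ^ m0) (A * p ^ m0) hc
  have h2 : ((l : S) ^ l * ζ ^ A) ^ p ^ m0 - v0 ^ l =
      -((l : S) ^ (l * p ^ m0)) * ((v0 * ((ui⁻¹ : Sˣ) : S) ^ p ^ m0) ^ l - ζ ^ (A * p ^ m0)) := by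
    have h3 : (l : S) ^ (l * p ^ m0) * (((ui⁻¹ : Sˣ) : S) ^ p ^ m0) ^ l = 1 := by
      rw [← pow_mul, Nat.mul_comm (p ^ m0) l, ← mul_pow, ← hui, Units.mul_inv, one_pow]
    rw [mul_pow, mul_pow v0, ← pow_mul, ← pow_mul]
    linear_combination v0 ^ l * h3
  rw [h2]
  refine IsUnit.mul ?_ h1
  rw [← hui]
  exact (ui.isUnit.pow (l * p ^ m0)).neg

end

end Pool.Agent.W_42fc02_h7
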