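import Pool.Agent.W_42fc02_h7.LzC

/-!
# The ramification lemma: Galois part
-/

set_option autoImplicit false

namespace Pool.Agent.W_42fc02_h7

section

variable {S E L : Type*} [CommRing S] [IsDomain S] [IsDiscreteValuationRing S] [Field E]
  [Algebra S E] [IsFractionRing S E] [Field L] [Algebra E L] [Algebra S L] [IsScalarTower S E L]
  [FiniteDimensional E L] [Normal E L]

/-- some automorphism moves `β` by the primitive root `lam` -/
theorem exists_s {l p : ℕ} (hl : l.Prime) [ExpChar E p] (hlp : ¬ l ∣ p) {lam : S}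
    (hlam : IsPrimitiveRoot lam l)
    {z : S} (hz : Irreducible z) {b : E} {β : L} (hβ : β ^ l = algebraMap E L b)
    {a : ℤ} {u : S} (hu : IsUnit u) (hb : b = algebraMap S E u * (algebraMap S E z) ^ a)
    (ha : ¬ (l : ℤ) ∣ a) : ∃ s : L ≃ₐ[E] L, s β = algebraMap S L lam * β := by
  have : NeZero l := ⟨hl.ne_zero⟩
  have hinjE : Function.Injective (algebraMap S E) := IsFractionRing.injective S E
  have hinjL : Function.Injective (algebraMap S L) := by
    rw [IsScalarTower.algebraMap_eq S E L]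
    exact (algebraMap E L).injective.comp hinjE
  have hz0 : algebraMap S E z ≠ 0 := by
    rw [Ne, map_eq_zero_iff _ hinjE]
    exact hz.ne_zero
  have hβ0 : β ≠ 0 := by
    rintro rfl
    rw [zero_pow hl.ne_zero] at hβ
    have h1 := (map_eq_zero_iff _ (algebraMap E L).injective).1 hβ.symm
    rw [h1] at hb
    have hu0 : algebraMap S E u ≠ 0 := by
      rw [Ne, map_eq_zero_iff _ hinjE]
      exact hu.ne_zero
    exact mul_ne_zero hu0 (zpow_ne_zero _ hz0) hb.symm
  have hlamL : IsPrimitiveRoot (algebraMap S L lam) l := hlam.map_of_injective hinjL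
  have hfixlam : ∀ g : L ≃ₐ[E] L, g (algebraMap S L lam) = algebraMap S L lam := by
    intro g
    rw [IsScalarTower.algebraMap_apply S E L, g.commutes]
  by_cases hall : ∀ g : L ≃ₐ[E] L, g β = β
  · exfalso
    obtain ⟨m, y, hy⟩ := exists_pow_mem_of_fixed p hall
    have h1 : b ^ p ^ m = y ^ l := by
      apply (algebraMap E L).injective
      rw [map_pow, map_pow, ← hβ, ← hy, ← pow_mul, ← pow_mul, Nat.mul_comm]
    have hb0 : b ≠ 0 := by
      rintro rfl
      rw [map_zero] at hβ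
      exact pow_ne_zero _ hβ0 hβ
    have hy0 : y ≠ 0 := by
      rintro rfl
      rw [zero_pow hl.ne_zero] at h1
      exact pow_ne_zero _ hb0 h1
    obtain ⟨d, v, hv, hyv⟩ := exists_zpow hz hy0
    obtain ⟨B, hB1, hB2⟩ := exists_val (S := S) (L := E)
    have hϖ0 : 0 < B.valuation (algebraMap S E z) := by
      rw [zero_lt_iff, Valuation.ne_zero_iff]
      exact hz0
    have hϖ1 : B.valuation (algebraMap S E z) < 1 := hB2 z hz.not_isUnit
    have h2 := congrArg B.valuation h1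
    rw [map_pow, map_pow, hb, hyv, map_mul, map_mul, hB1 u hu, hB1 v hv, one_mul, one_mul,
      map_zpow₀, map_zpow₀, ← zpow_natCast, ← zpow_natCast, ← zpow_mul, ← zpow_mul] at h2
    have h3 := zpow_right_injective₀ hϖ0 hϖ1.ne h2
    have hlI : Prime (l : ℤ) := Nat.prime_iff_prime_int.1 hl
    have h4 : (l : ℤ) ∣ a * ((p ^ m : ℕ) : ℤ) := ⟨d, by rw [h3]; ring⟩
    rcases hlI.dvd_or_dvd h4 with h | h
    · exact ha h
    · have h5 : l ∣ p ^ m := by exact_mod_cast h
      exact hlp (hl.dvd_of_dvd_pow h5)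
  · push Not at hall
    obtain ⟨g, hg⟩ := hall
    have h1 : (g β / β) ^ l = 1 := by
      rw [div_pow, ← map_pow, hβ, AlgEquiv.commutes, div_self]
      rw [← hβ]
      exact pow_ne_zero _ hβ0
    obtain ⟨j, hj, hjj⟩ := hlamL.eq_pow_of_pow_eq_one h1
    have hgβ : g β = algebraMap S L lam ^ j * β := by
      rw [hjj, div_mul_cancel₀ _ hβ0]
    have hj0 : j ≠ 0 := by
      rintro rfl
      rw [pow_zero, one_mul] at hgβ
      exact hg hgβ
    have hcop : j.Coprime l := by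
      rw [Nat.coprime_comm, hl.coprime_iff_not_dvd]
      intro h
      exact hj0 (Nat.eq_zero_of_dvd_of_lt h hj)
    obtain ⟨i, hi⟩ := Nat.exists_mul_mod_eq_one_of_coprime hcop hl.one_lt
    have hpow : ∀ i : ℕ, (g ^ i) β = algebraMap S L lam ^ (j * i) * β := by
      intro i
      induction i with
      | zero => simp
      | succ i ih =>
        rw [pow_succ', AlgEquiv.mul_apply, ih, map_mul, map_pow, hfixlam, hgβ, Nat.mul_succ,
          pow_add]
        ring
    refine ⟨g ^ i, ?_⟩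
    rw [hpow, ← pow_mod_orderOf, ← hlamL.eq_orderOf, hi.2, pow_one]

theorem lz_fin {l e p : ℕ} (hl : l.Prime) [ExpChar E p] (hlp : ¬ l ∣ p) {ζ : S}
    (hζS : IsPrimitiveRoot ζ (l ^ (e + 1)))
    (hres : ∀ (v : S) (m : ℕ), m.Coprime l → IsUnit (v ^ l - ζ ^ m))
    {z : S} (hz : Irreducible z) {b : E} {β : L} (hβ : β ^ l = algebraMap E L b)
    {a : ℤ} {u : S} (hu : IsUnit u) (hb : b = algebraMap S E u * (algebraMap S E z) ^ a)
    (ha : ¬ (l : ℤ) ∣ a) {ξ : (L ≃ₐ[E] L) → ℚ}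
    (hξ : ∀ g h, ∃ m : ℤ, ξ (g * h) = ξ g + ξ h + m)
    (hψ : ∀ (g : L ≃ₐ[E] L) (j : ℕ), g β = algebraMap S L ((ζ ^ l ^ e) ^ j) * β →
      ∃ m : ℤ, (l : ℚ) ^ (e + 1) * ξ g = (j : ℚ) / l + m) : False := by
  classical
  have hinjE : Function.Injective (algebraMap S E) := IsFractionRing.injective S E
  have hinjL : Function.Injective (algebraMap S L) := by
    rw [IsScalarTower.algebraMap_eq S E L]
    exact (algebraMap E L).injective.comp hinjE
  have hl0Q : (l : ℚ) ≠ 0 := by exact_mod_cast hl.ne_zero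
  have hlamS : IsPrimitiveRoot (ζ ^ l ^ e) l :=
    hζS.pow (pow_pos hl.pos _) (by rw [pow_succ])
  have hζE : IsPrimitiveRoot (algebraMap S E ζ) (l ^ (e + 1)) := hζS.map_of_injective hinjE
  have hζE0 : algebraMap S E ζ ≠ 0 := hζE.ne_zero (pow_pos hl.pos _).ne'
  obtain ⟨s, hs⟩ := exists_s hl hlp hlamS hz hβ hu hb ha
  have hfixlam : ∀ (g : L ≃ₐ[E] L) (t : S), g (algebraMap S L t) = algebraMap S L t := by
    intro g t
    rw [IsScalarTower.algebraMap_apply S E L, g.commutes]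
  -- the stabiliser of `β`
  let N : Subgroup (L ≃ₐ[E] L) := MulAction.stabilizer (L ≃ₐ[E] L) β
  have hN : ∀ g, g ∈ N ↔ g β = β := fun g => MulAction.mem_stabilizer_iff
  let n : (L ≃ₐ[E] L) → ℤ := fun g => ⌊(l : ℚ) ^ (e + 1) * ξ g⌋
  have hn : ∀ g ∈ N, (n g : ℚ) = (l : ℚ) ^ (e + 1) * ξ g := by
    intro g hg
    obtain ⟨m, hm⟩ := hψ g 0 (by
      rw [pow_zero, map_one, one_mul]
      exact (hN g).1 hg)
    show ((⌊(l : ℚ) ^ (e + 1) * ξ g⌋ : ℤ) : ℚ) = _
    rw [hm]
    simp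
  have hcong : ∀ {i j : ℤ}, (∃ m : ℤ, (i : ℚ) = j + (l : ℚ) ^ (e + 1) * m) →
      algebraMap S E ζ ^ i = algebraMap S E ζ ^ j := by
    rintro i j ⟨m, hm⟩
    have h1 : i = j + (l : ℤ) ^ (e + 1) * m := by exact_mod_cast hm
    rw [h1, zpow_add₀ hζE0, zpow_mul]
    have h2 : algebraMap S E ζ ^ ((l : ℤ) ^ (e + 1)) = 1 := by
      have h3 : ((l : ℤ) ^ (e + 1)) = ((l ^ (e + 1) : ℕ) : ℤ) := by push_cast; rfl
      rw [h3, zpow_natCast, hζE.pow_eq_one]
    rw [h2, one_zpow, mul_one]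
  obtain ⟨u0, hu0, hgu⟩ := exists_resolvent N (fun g => algebraMap S E ζ ^ n g)
    (fun g _ => zpow_ne_zero _ hζE0) (by
      intro g hg h hh
      obtain ⟨m, hm⟩ := hξ g h
      show algebraMap S E ζ ^ n (g * h) = algebraMap S E ζ ^ n g * algebraMap S E ζ ^ n h
      rw [← zpow_add₀ hζE0]
      apply hcong
      refine ⟨m, ?_⟩
      push_cast
      rw [hn _ (N.mul_mem hg hh), hn g hg, hn h hh, hm]
      ring)
  have hsl : ∀ k : ℕ, (s ^ k) β = algebraMap S L ((ζ ^ l ^ e) ^ k) * β := by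
    intro k
    induction k with
    | zero => simp
    | succ k ih =>
      rw [pow_succ', AlgEquiv.mul_apply, ih, map_mul, hfixlam, hs, pow_succ _ k, map_mul]
      ring
  have hslN : s ^ l ∈ N := by
    rw [hN, hsl, hlamS.pow_eq_one, map_one, one_mul]
  have hξpow : ∀ k : ℕ, ∃ m : ℤ, ξ (s ^ k) = k * ξ s + m := by
    intro k
    induction k with
    | zero =>
      obtain ⟨m, hm⟩ := hξ 1 1
      rw [mul_one] at hm
      refine ⟨-m, ?_⟩
      rw [pow_zero]
      push_cast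
      linarith
    | succ k ih =>
      obtain ⟨m, hm⟩ := ih
      obtain ⟨m', hm'⟩ := hξ (s ^ k) s
      refine ⟨m + m', ?_⟩
      rw [pow_succ, hm', hm]
      push_cast
      ring
  have hx0 : s u0 / u0 ≠ 0 := div_ne_zero ((map_ne_zero s).2 hu0) hu0
  have hxfix : ∀ g : L ≃ₐ[E] L, g β = β → g (s u0 / u0) = s u0 / u0 := by
    intro g hg
    have hg' : s⁻¹ * g * s ∈ N := by
      rw [hN, AlgEquiv.mul_apply, AlgEquiv.mul_apply, hs, map_mul, hfixlam, hg, ← hs,
        ← AlgEquiv.mul_apply, inv_mul_cancel, AlgEquiv.one_apply]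
    have h1 := hgu _ hg'
    have h2 : algebraMap S E ζ ^ n (s⁻¹ * g * s) = algebraMap S E ζ ^ n g := by
      apply hcong
      obtain ⟨m, hm⟩ := hξ g s
      obtain ⟨m', hm'⟩ := hξ s (s⁻¹ * g * s)
      have h3 : s * (s⁻¹ * g * s) = g * s := by group
      rw [h3, hm] at hm'
      refine ⟨m - m', ?_⟩
      rw [hn _ hg', hn g ((hN g).2 hg)]
      push_cast
      have h4 : ξ (s⁻¹ * g * s) = ξ g + m - m' := by linarith
      rw [h4]
      ring
    simp only [h2] at h1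
    rw [AlgEquiv.mul_apply, AlgEquiv.mul_apply] at h1
    have h5 := congrArg s h1
    rw [← AlgEquiv.mul_apply, mul_inv_cancel, AlgEquiv.one_apply, map_mul, s.commutes] at h5
    rw [map_div₀, h5, hgu g ((hN g).2 hg)]
    have h6 : algebraMap E L (algebraMap S E ζ ^ n g) ≠ 0 :=
      (map_ne_zero _).2 (zpow_ne_zero _ hζE0)
    rw [mul_div_mul_left _ _ h6]
  have htel : ∀ k : ℕ, ∏ i ∈ Finset.range k, (s ^ i) (s u0 / u0) = (s ^ k) u0 / u0 := by
    intro k
    induction k with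
    | zero => simp [hu0]
    | succ k ih =>
      rw [Finset.prod_range_succ, ih, map_div₀, ← AlgEquiv.mul_apply, ← pow_succ]
      have h7 : (s ^ k) u0 ≠ 0 := (map_ne_zero _).2 hu0
      field_simp
  obtain ⟨m1, hm1⟩ := hψ s 1 (by rw [pow_one]; exact hs)
  obtain ⟨m2, hm2⟩ := hξpow l
  have hnl : n (s ^ l) = 1 + l * m1 + (l : ℤ) ^ (e + 1) * m2 := by
    have h8 : (n (s ^ l) : ℚ) = 1 + l * m1 + (l : ℚ) ^ (e + 1) * m2 := by
      rw [hn _ hslN, hm2]
      have h9 : (l : ℚ) ^ (e + 1) * (l * ξ s + m2) =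
          l * ((l : ℚ) ^ (e + 1) * ξ s) + (l : ℚ) ^ (e + 1) * m2 := by ring
      rw [h9, hm1]
      field_simp
      push_cast
      ring
    exact_mod_cast h8
  have hlI : (0 : ℤ) < (l : ℤ) ^ (e + 1) := pow_pos (by exact_mod_cast hl.pos) _
  set A : ℕ := (n (s ^ l) % (l : ℤ) ^ (e + 1)).toNat with hA
  have hAz : (A : ℤ) = n (s ^ l) % (l : ℤ) ^ (e + 1) := by
    rw [hA, Int.toNat_of_nonneg (Int.emod_nonneg _ hlI.ne')]
  have hAd : ¬ l ∣ A := by
    intro h
    have h10 : (l : ℤ) ∣ A := by exact_mod_cast h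
    rw [hAz] at h10
    have h11 : (l : ℤ) ∣ (l : ℤ) ^ (e + 1) := dvd_pow_self _ (Nat.succ_ne_zero e)
    have h12 : (l : ℤ) ∣ n (s ^ l) := (Int.dvd_iff_emod_eq_zero.2 (by
      have h13 := Int.emod_emod_of_dvd (n (s ^ l)) h11
      rw [← h13]
      exact Int.emod_eq_zero_of_dvd h10))
    rw [hnl] at h12
    have h14 : (l : ℤ) ∣ 1 := by
      have h15 : (1 : ℤ) = (1 + l * m1 + (l : ℤ) ^ (e + 1) * m2) - (l : ℤ) * (m1 + (l : ℤ) ^ e * m2) := by
        rw [pow_succ]
        ring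
      rw [h15]
      exact dvd_sub h12 (dvd_mul_right _ _)
    have h16 : l ∣ 1 := by exact_mod_cast h14
    exact hl.one_lt.ne' (Nat.dvd_one.1 h16)
  refine lz_val hl hlp hζS hres hz hβ hu hb ha hs hx0 hxfix hAd ?_
  rw [htel, hgu _ hslN, mul_div_cancel_right₀ _ hu0, IsScalarTower.algebraMap_apply S E L, map_pow]
  congr 1
  rw [← zpow_natCast (algebraMap S E ζ) A]
  apply hcong
  refine ⟨n (s ^ l) / (l : ℤ) ^ (e + 1), ?_⟩
  have h17 := Int.emod_add_mul_ediv (n (s ^ l)) ((l : ℤ) ^ (e + 1))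
  rw [hAz]
  exact_mod_cast h17.symm

end

end Pool.Agent.W_42fc02_h7
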