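import Mathlib

/-!
# The discrete valuation ring of a curve at a transversal crossing
-/

set_option autoImplicit false

namespace Pool.Agent.W_42fc02_h7

/-- `m` a maximal ideal of the Noetherian ring `R`, `m = (P, Q) + m ^ 2`, `Q` prime. Then the local
ring of `R / Q` at `m` is a discrete valuation ring with uniformizer `P` and residue field
`R / m`. -/
theorem exists_dvr {R : Type} [CommRing R] [IsNoetherianRing R] {P Q : R} {m : Ideal R}
    (hm : m.IsMaximal) (hQp : (Ideal.span {Q}).IsPrime) (hPQ : P ∉ Ideal.span {Q})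
    (hm2 : Ideal.span {P, Q} ⊔ m ^ 2 = m) {E : Type} [Field E] (φ : R →+* E)
    (hker : RingHom.ker φ = Ideal.span {Q})
    (hfrac : ∀ x : E, ∃ f g, x = φ f / φ g) :
    ∃ (S : Type) (_ : CommRing S) (_ : IsDomain S) (_ : IsDiscreteValuationRing S)
      (_ : Algebra S E) (_ : IsFractionRing S E) (ι : R →+* S),
      (∀ f, algebraMap S E (ι f) = φ f) ∧ (∀ f, f ∉ m → IsUnit (ι f)) ∧ Irreducible (ι P) ∧
      Nonempty ((R ⧸ m) ≃+* IsLocalRing.ResidueField S) := by
  have hle : Ideal.span {Q} ≤ m := by
    refine le_trans ?_ (le_trans le_sup_left hm2.le)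
    exact Ideal.span_mono (by simp)
  have hPm : P ∈ m := by
    refine (le_trans le_sup_left hm2.le) (Ideal.subset_span (by simp))
  have hdom : IsDomain (R ⧸ Ideal.span {Q}) := Ideal.Quotient.isDomain _
  let algA : Algebra (R ⧸ Ideal.span {Q}) E :=
    (Ideal.Quotient.lift (Ideal.span {Q}) φ (fun a ha => by
      rwa [← RingHom.mem_ker, hker])).toAlgebra
  have halg : ∀ f : R, algebraMap (R ⧸ Ideal.span {Q}) E (Ideal.Quotient.mk _ f) = φ f :=
    fun f => rfl
  have hinj : Function.Injective (algebraMap (R ⧸ Ideal.span {Q}) E) := by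
    rw [injective_iff_map_eq_zero]
    intro a ha
    obtain ⟨f, rfl⟩ := Ideal.Quotient.mk_surjective a
    rw [halg] at ha
    rw [Ideal.Quotient.eq_zero_iff_mem, ← hker]
    exact ha
  have hfs : FaithfulSMul (R ⧸ Ideal.span {Q}) E := by
    rw [faithfulSMul_iff_algebraMap_injective]
    exact hinj
  have hfr : IsFractionRing (R ⧸ Ideal.span {Q}) E := by
    refine IsFractionRing.of_field _ _ (fun x => ?_)
    obtain ⟨f, g, hfg⟩ := hfrac x
    exact ⟨Ideal.Quotient.mk _ f, Ideal.Quotient.mk _ g, hfg⟩
  set M : Ideal (R ⧸ Ideal.span {Q}) := m.map (Ideal.Quotient.mk (Ideal.span {Q})) with hM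
  have hkerle : RingHom.ker (Ideal.Quotient.mk (Ideal.span {Q})) ≤ m := by
    rw [Ideal.mk_ker]
    exact hle
  have hMmax : M.IsMaximal :=
    Ideal.IsMaximal.map_of_surjective_of_ker_le Ideal.Quotient.mk_surjective hkerle
  have hmem : ∀ f, Ideal.Quotient.mk (Ideal.span {Q}) f ∈ M → f ∈ m := by
    intro f hf
    have h1 : f ∈ Ideal.comap (Ideal.Quotient.mk (Ideal.span {Q})) M := hf
    rw [hM, Ideal.comap_map_of_surjective _ Ideal.Quotient.mk_surjective] at h1
    have h2 : m ⊔ Ideal.comap (Ideal.Quotient.mk (Ideal.span {Q})) ⊥ ≤ m :=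
      sup_le le_rfl (by
        rw [← RingHom.ker_eq_comap_bot]
        exact hkerle)
    exact h2 h1
  have hMp : M.IsPrime := hMmax.isPrime
  have hMle : M.primeCompl ≤ nonZeroDivisors (R ⧸ Ideal.span {Q}) :=
    M.primeCompl_le_nonZeroDivisors
  let algS : Algebra (Localization.AtPrime M) E :=
    IsLocalization.localizationAlgebraOfSubmonoidLe (Localization.AtPrime M) E M.primeCompl
      (nonZeroDivisors (R ⧸ Ideal.span {Q})) hMle
  have hst : IsScalarTower (R ⧸ Ideal.span {Q}) (Localization.AtPrime M) E :=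
    IsLocalization.localization_isScalarTower_of_submonoid_le (Localization.AtPrime M) E
      M.primeCompl (nonZeroDivisors (R ⧸ Ideal.span {Q})) hMle
  have hfrS : IsFractionRing (Localization.AtPrime M) E :=
    IsFractionRing.isFractionRing_of_isLocalization M.primeCompl (Localization.AtPrime M) E hMle
  have hdomS : IsDomain (Localization.AtPrime M) :=
    IsLocalization.isDomain_of_le_nonZeroDivisors _ hMle
  have hnoeth : IsNoetherianRing (Localization.AtPrime M) :=
    IsLocalization.isNoetherianRing M.primeCompl _ inferInstance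
  let ι : R →+* Localization.AtPrime M :=
    (algebraMap (R ⧸ Ideal.span {Q}) (Localization.AtPrime M)).comp
      (Ideal.Quotient.mk (Ideal.span {Q}))
  have hιφ : ∀ f, algebraMap (Localization.AtPrime M) E (ι f) = φ f := by
    intro f
    show algebraMap (Localization.AtPrime M) E
      (algebraMap (R ⧸ Ideal.span {Q}) (Localization.AtPrime M) (Ideal.Quotient.mk _ f)) = _
    rw [← IsScalarTower.algebraMap_apply]
    exact halg f
  have hmax : m.map ι = IsLocalRing.maximalIdeal (Localization.AtPrime M) := by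
    rw [← Ideal.map_map, ← hM]
    exact Localization.AtPrime.map_eq_maximalIdeal
  have hιQ : ι Q = 0 := by
    show algebraMap _ _ (Ideal.Quotient.mk (Ideal.span {Q}) Q) = 0
    rw [Ideal.Quotient.eq_zero_iff_mem.2 (Ideal.mem_span_singleton_self Q), map_zero]
  have hιP0 : ι P ≠ 0 := by
    intro h
    have h1 := hιφ P
    rw [h, map_zero] at h1
    apply hPQ
    rw [← hker]
    exact h1.symm
  have hspan : IsLocalRing.maximalIdeal (Localization.AtPrime M) = Ideal.span {ι P} := by
    apply le_antisymm
    · refine Submodule.le_of_le_smul_of_le_jacobson_bot (I := IsLocalRing.maximalIdeal _)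
        ((isNoetherianRing_iff_ideal_fg _).1 hnoeth _) (IsLocalRing.maximalIdeal_le_jacobson _) ?_
      have h1 := congrArg (Ideal.map ι) hm2
      rw [Ideal.map_sup, Ideal.map_pow, hmax, Ideal.map_span, Set.image_pair, hιQ] at h1
      conv_lhs => rw [← h1]
      apply sup_le_sup
      · rw [Ideal.span_le]
        intro x hx
        rcases hx with rfl | hx
        · exact Ideal.mem_span_singleton_self _
        · rw [Set.mem_singleton_iff] at hx
          rw [hx]
          exact Ideal.zero_mem _
      · rw [pow_two, smul_eq_mul]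
    · rw [Ideal.span_singleton_le_iff_mem, ← hmax]
      exact Ideal.mem_map_of_mem _ hPm
  have hnf : ¬ IsField (Localization.AtPrime M) := by
    rw [IsLocalRing.isField_iff_maximalIdeal_eq, hspan, Ideal.span_singleton_eq_bot]
    exact hιP0
  have hdvr : IsDiscreteValuationRing (Localization.AtPrime M) := by
    have h1 := (IsDiscreteValuationRing.TFAE (Localization.AtPrime M) hnf).out 0 4
    rw [h1, hspan]
    exact ⟨⟨ι P, rfl⟩⟩
  refine ⟨Localization.AtPrime M, inferInstance, hdomS, hdvr, algS, hfrS, ι, hιφ, ?_, ?_, ?_⟩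
  · intro f hf
    exact IsLocalization.map_units (Localization.AtPrime M)
      (⟨Ideal.Quotient.mk _ f, fun h => hf (hmem f h)⟩ : M.primeCompl)
  · rw [IsDiscreteValuationRing.irreducible_iff_uniformizer]
    exact hspan
  · exact ⟨(DoubleQuot.quotQuotEquivQuotOfLE hle).symm.trans
      (IsLocalization.AtPrime.equivQuotMaximalIdeal M (Localization.AtPrime M))⟩

end Pool.Agent.W_42fc02_h7
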