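import Pool.Agent.W_42fc02_h7.LzD

/-!
# The ramification lemma for characters of finite level of an infinite normal extension
-/

set_option autoImplicit false

namespace Pool.Agent.W_42fc02_h7

section

variable {S E K : Type*} [CommRing S] [IsDomain S] [IsDiscreteValuationRing S] [Field E]
  [Algebra S E] [IsFractionRing S E] [Field K] [Algebra E K] [Normal E K]

theorem lz_inf {l e p : ℕ} (hl : l.Prime) [ExpChar E p] (hlp : ¬ l ∣ p) {ζ : S}
    (hζS : IsPrimitiveRoot ζ (l ^ (e + 1)))
    (hres : ∀ (v : S) (m : ℕ), m.Coprime l → IsUnit (v ^ l - ζ ^ m))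
    {z : S} (hz : Irreducible z) {b : E} {β : K} (hβ : β ^ l = algebraMap E K b)
    {a : ℤ} {u : S} (hu : IsUnit u) (hb : b = algebraMap S E u * (algebraMap S E z) ^ a)
    (ha : ¬ (l : ℤ) ∣ a) {ξ : (K ≃ₐ[E] K) → ℚ}
    (hξ : ∀ g h, ∃ m : ℤ, ξ (g * h) = ξ g + ξ h + m) (T : Finset K)
    (hT : ∀ g : K ≃ₐ[E] K, (∀ x ∈ T, g x = x) → ∃ m : ℤ, ξ g = m)
    (hψ : ∀ (g : K ≃ₐ[E] K) (j : ℕ),
      g β = algebraMap E K (algebraMap S E ((ζ ^ l ^ e) ^ j)) * β →
      ∃ m : ℤ, (l : ℚ) ^ (e + 1) * ξ g = (j : ℚ) / l + m) : False := by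
  classical
  -- a finite normal subextension containing `β` and `T`
  let L0 : IntermediateField E K := IntermediateField.adjoin E ((insert β T : Finset K) : Set K)
  have hfd0 : FiniteDimensional E L0 := by
    apply IntermediateField.finiteDimensional_adjoin
    intro x _
    exact Algebra.IsIntegral.isIntegral x
  let L : IntermediateField E K := IntermediateField.normalClosure E L0 K
  have hfd : FiniteDimensional E L := normalClosure.is_finiteDimensional E L0 K
  have hnor : Normal E L := normalClosure.normal E L0 K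
  have hle : L0 ≤ L := IntermediateField.le_normalClosure L0
  have hβL : β ∈ L := hle (IntermediateField.subset_adjoin E _ (by simp))
  have hTL : ∀ x ∈ T, x ∈ L := fun x hx =>
    hle (IntermediateField.subset_adjoin E _ (by simp [hx]))
  let algSL : Algebra S L := ((algebraMap E L).comp (algebraMap S E)).toAlgebra
  have hst : IsScalarTower S E L := IsScalarTower.of_algebraMap_eq fun x => rfl
  have hlift : ∀ (g : L ≃ₐ[E] L) (x : L), (g.liftNormal K) (x : K) = (g x : K) :=
    fun g x => AlgEquiv.liftNormal_commutes g K x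
  refine lz_fin (L := L) (β := ⟨β, hβL⟩) (ξ := fun g => ξ (g.liftNormal K)) hl hlp hζS hres hz ?_
    hu hb ha ?_ ?_
  · apply Subtype.ext
    exact hβ
  · intro g h
    have hδ : ∀ x ∈ T, ((g.liftNormal K * h.liftNormal K)⁻¹ * (g * h).liftNormal K) x = x := by
      intro x hx
      have h1 : (g * h).liftNormal K x = (g.liftNormal K * h.liftNormal K) x := by
        have e1 := hlift (g * h) ⟨x, hTL x hx⟩
        have e2 := hlift h ⟨x, hTL x hx⟩
        have e3 := hlift g (h ⟨x, hTL x hx⟩)
        rw [AlgEquiv.mul_apply, e1, AlgEquiv.mul_apply, e2, e3]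
      rw [AlgEquiv.mul_apply, h1, ← AlgEquiv.mul_apply, inv_mul_cancel, AlgEquiv.one_apply]
    obtain ⟨m1, hm1⟩ := hT _ hδ
    obtain ⟨m2, hm2⟩ := hξ (g.liftNormal K * h.liftNormal K)
      ((g.liftNormal K * h.liftNormal K)⁻¹ * (g * h).liftNormal K)
    obtain ⟨m3, hm3⟩ := hξ (g.liftNormal K) (h.liftNormal K)
    rw [mul_inv_cancel_left, hm1, hm3] at hm2
    refine ⟨m1 + m2 + m3, ?_⟩
    show ξ ((g * h).liftNormal K) = _
    rw [hm2]
    push_cast
    ring
  · intro g j hg
    apply hψ
    have h1 := hlift g ⟨β, hβL⟩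
    rw [hg] at h1
    exact h1

end

end Pool.Agent.W_42fc02_h7
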