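import Pool.Agent.W_42fc02_h7.Der

/-!
# Tools for closed points on plane curves over finite fields
-/

set_option autoImplicit false

open Polynomial
open scoped Polynomial.Bivariate

namespace Pool.Agent.W_42fc02_h7

/-- a maximal ideal of `k[X][Y]` whose residue field has degree prime to `l` over `k` -/
def IsPt {k : Type*} [Field k] (l : ℕ) (m : Ideal k[X][Y]) : Prop :=
  m.IsMaximal ∧ ∃ r : ℕ, ¬ l ∣ r ∧ Nat.card (k[X][Y] ⧸ m) = Nat.card k ^ r

theorem IsPt.finite {k : Type*} [Field k] [Finite k] {l : ℕ} {m : Ideal k[X][Y]}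
    (h : IsPt l m) : Finite (k[X][Y] ⧸ m) := by
  obtain ⟨-, r, -, hr⟩ := h
  apply Nat.finite_of_card_ne_zero
  rw [hr]
  exact pow_ne_zero _ Nat.card_pos.ne'

section

variable {k : Type*} [Field k]

/-- Elimination. -/
theorem exists_bezout {p g : k[X][Y]} (hp : Prime p) (hd : p.natDegree ≠ 0) (hg : ¬ p ∣ g) :
    ∃ (a b : k[X][Y]) (c : k[X]), c ≠ 0 ∧ a * p + b * g = C c := by
  obtain ⟨a, b, -, -, hab⟩ := exists_mul_add_mul_eq_C_resultant p g le_rfl le_rfl (Or.inl hd)
  refine ⟨a, b, p.resultant g p.natDegree g.natDegree, ?_, ?_⟩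
  · intro h0
    let K := FractionRing k[X]
    have hinj : Function.Injective (algebraMap k[X] K) := IsFractionRing.injective _ _
    have h1 : resultant (p.map (algebraMap k[X] K)) (g.map (algebraMap k[X] K)) = 0 := by
      rw [natDegree_map_eq_of_injective hinj, natDegree_map_eq_of_injective hinj,
        resultant_map_map, h0, map_zero]
    rw [resultant_eq_zero_iff] at h1
    apply h1.2
    have hprim : p.IsPrimitive := hp.irreducible.isPrimitive hd
    have hirr : Irreducible (p.map (algebraMap k[X] K)) :=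
      (hprim.irreducible_iff_irreducible_map_fraction_map).1 hp.irreducible
    rw [hirr.coprime_iff_not_dvd]
    exact fun h => hg (hprim.dvd_of_fraction_map_dvd_fraction_map h)
  · rw [← hab]
    ring

theorem exists_irr_degree [Finite k] (r : ℕ) (hr : r ≠ 0) :
    ∃ h : k[X], Irreducible h ∧ h.natDegree = r := by
  obtain ⟨ℓ, hℓ⟩ := CharP.exists k
  have : Fact ℓ.Prime := ⟨CharP.char_is_prime k ℓ⟩
  have : NeZero r := ⟨hr⟩
  let E := FiniteField.Extension k ℓ r
  obtain ⟨α, hα⟩ := Field.exists_primitive_element k E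
  have hint : IsIntegral k α := Algebra.IsIntegral.isIntegral α
  refine ⟨minpoly k α, minpoly.irreducible hint, ?_⟩
  rw [← IntermediateField.adjoin.finrank hint, hα, IntermediateField.finrank_top',
    FiniteField.finrank_extension]

theorem exists_factor_not_dvd {K : Type*} [Field K] {l : ℕ} :
    ∀ (n : ℕ) (f : K[X]), f.natDegree ≤ n → ¬ l ∣ f.natDegree →
      ∃ w : K[X], w.Monic ∧ Irreducible w ∧ w ∣ f ∧ ¬ l ∣ w.natDegree := by
  intro n
  induction n with
  | zero =>
    intro f hf hl
    exfalso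
    apply hl
    rw [Nat.le_zero.1 hf]
    exact dvd_zero l
  | succ n ih =>
    intro f hf hl
    have hf0 : f ≠ 0 := by
      rintro rfl
      simp at hl
    have hfd : f.natDegree ≠ 0 := by
      intro h0
      apply hl
      rw [h0]
      exact dvd_zero l
    obtain ⟨w, hwm, hwi, hwd⟩ := exists_monic_irreducible_factor f
      (not_isUnit_of_natDegree_pos f (Nat.pos_of_ne_zero hfd))
    by_cases hlw : l ∣ w.natDegree
    · obtain ⟨f', rfl⟩ := hwd
      have hf'0 : f' ≠ 0 := right_ne_zero_of_mul hf0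
      have hdeg : (w * f').natDegree = w.natDegree + f'.natDegree :=
        natDegree_mul hwi.ne_zero hf'0
      have hwpos := hwi.natDegree_pos
      have hl' : ¬ l ∣ f'.natDegree := by
        intro h
        apply hl
        rw [hdeg]
        exact dvd_add hlw h
      obtain ⟨w', h1, h2, h3, h4⟩ := ih f' (by omega) hl'
      exact ⟨w', h1, h2, h3.mul_left _, h4⟩
    · exact ⟨w, hwm, hwi, hwd, hlw⟩

/-- In a maximal ideal generated by two elements every `p ∉ m ^ 2` is part of a system of
parameters. -/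
theorem exists_param {R : Type*} [CommRing R] {m : Ideal R} (hm : m.IsMaximal) {h w p : R}
    (hmg : m = Ideal.span {h, w}) (hp : p ∈ m) (hp2 : p ∉ m ^ 2) :
    ∃ π : R, Ideal.span {p, π} ⊔ m ^ 2 = m := by
  have hhm : h ∈ m := by rw [hmg]; exact Ideal.subset_span (by simp)
  have hwm : w ∈ m := by rw [hmg]; exact Ideal.subset_span (by simp)
  obtain ⟨a, b, hab⟩ := Ideal.mem_span_pair.1 (hmg ▸ hp)
  have hle : ∀ π ∈ m, Ideal.span {p, π} ⊔ m ^ 2 ≤ m := by
    intro π hπ
    apply sup_le
    · rw [Ideal.span_le]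
      rintro x (rfl | rfl)
      · exact hp
      · exact hπ
    · exact Ideal.pow_le_self (by norm_num)
  by_cases hb : b ∈ m
  · have ha : a ∉ m := by
      intro ha
      apply hp2
      rw [← hab, sq]
      exact add_mem (Ideal.mul_mem_mul ha hhm) (Ideal.mul_mem_mul hb hwm)
    obtain ⟨y, μ, hμ, hy⟩ := hm.exists_inv ha
    refine ⟨w, le_antisymm (hle w hwm) ?_⟩
    conv_lhs => rw [hmg]
    rw [Ideal.span_le]
    rintro x (rfl | rfl)
    · have : x = (y * p + (-(y * b)) * w) + μ * x := by
        rw [← hab]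
        linear_combination (-x) * hy
      rw [this]
      refine add_mem (Ideal.mem_sup_left ?_) (Ideal.mem_sup_right ?_)
      · exact Ideal.mem_span_pair.2 ⟨y, -(y * b), rfl⟩
      · rw [sq]
        exact Ideal.mul_mem_mul hμ hhm
    · exact Ideal.mem_sup_left (Ideal.subset_span (by simp))
  · obtain ⟨y, μ, hμ, hy⟩ := hm.exists_inv hb
    refine ⟨h, le_antisymm (hle h hhm) ?_⟩
    conv_lhs => rw [hmg]
    rw [Ideal.span_le]
    rintro x (rfl | rfl)
    · exact Ideal.mem_sup_left (Ideal.subset_span (by simp))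
    · have : x = (y * p + (-(y * a)) * h) + μ * x := by
        rw [← hab]
        linear_combination (-x) * hy
      rw [this]
      refine add_mem (Ideal.mem_sup_left ?_) (Ideal.mem_sup_right ?_)
      · exact Ideal.mem_span_pair.2 ⟨y, -(y * a), rfl⟩
      · rw [sq]
        exact Ideal.mul_mem_mul hμ hwm

end

end Pool.Agent.W_42fc02_h7
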