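import Pool.Agent.W_42fc02_h7.Pt1

/-!
# Closed points of degree prime to `l` on plane curves over finite fields
-/

set_option autoImplicit false

open Polynomial
open scoped Polynomial.Bivariate

namespace Pool.Agent.W_42fc02_h7

section

variable {k : Type*} [Field k]

/-- The evaluation `k[X][Y] → (k[X]/h)[Y]/w`. -/
noncomputable def evPt (h : k[X]) (w : (AdjoinRoot h)[X]) : k[X][Y] →+* AdjoinRoot w :=
  (AdjoinRoot.mk w).comp (mapRingHom (AdjoinRoot.mk h))

theorem evPt_apply (h : k[X]) (w : (AdjoinRoot h)[X]) (f : k[X][Y]) :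
    evPt h w f = AdjoinRoot.mk w (f.map (AdjoinRoot.mk h)) := rfl

theorem evPt_surjective (h : k[X]) (w : (AdjoinRoot h)[X]) : Function.Surjective (evPt h w) := by
  intro x
  obtain ⟨f, rfl⟩ := AdjoinRoot.mk_surjective x
  obtain ⟨g, rfl⟩ := Polynomial.map_surjective _ (AdjoinRoot.mk_surjective (g := h)) f
  exact ⟨g, rfl⟩

theorem ker_evPt {h : k[X]} [Fact (Irreducible h)] {w : (AdjoinRoot h)[X]} (hw : w.Monic) :
    ∃ W : k[X][Y], RingHom.ker (evPt h w) = Ideal.span {C h, W} := by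
  have hlift : w ∈ lifts (AdjoinRoot.mk h) := by
    rw [lifts_iff_coeff_lifts]
    intro n
    exact AdjoinRoot.mk_surjective _
  obtain ⟨W, hWw, hWd, hWm⟩ := lifts_and_natDegree_eq_and_monic hlift hw
  refine ⟨W, le_antisymm ?_ ?_⟩
  · intro f hf
    rw [RingHom.mem_ker] at hf
    have hdiv : f = f %ₘ W + W * (f /ₘ W) := (modByMonic_add_div f W).symm
    have hW0 : evPt h w W = 0 := by
      rw [evPt_apply, hWw, AdjoinRoot.mk_self]
    have hr0 : evPt h w (f %ₘ W) = 0 := by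
      have := hf
      rw [hdiv, map_add, map_mul, hW0, zero_mul, add_zero] at this
      exact this
    have hmap : (f %ₘ W).map (AdjoinRoot.mk h) = 0 := by
      rw [evPt_apply, AdjoinRoot.mk_eq_zero] at hr0
      by_contra hne
      have h1 : w.degree ≤ ((f %ₘ W).map (AdjoinRoot.mk h)).degree := degree_le_of_dvd hr0 hne
      have h2 : ((f %ₘ W).map (AdjoinRoot.mk h)).degree ≤ (f %ₘ W).degree := degree_map_le
      have h3 : (f %ₘ W).degree < W.degree := degree_modByMonic_lt f hWm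
      have h4 : W.degree = w.degree := by
        rw [degree_eq_natDegree hWm.ne_zero, degree_eq_natDegree hw.ne_zero, hWd]
      rw [h4] at h3
      exact absurd (h1.trans h2) (not_le_of_gt h3)
    have hmem : f %ₘ W ∈ Ideal.map C (Ideal.span {h} : Ideal k[X]) := by
      rw [Ideal.mem_map_C_iff]
      intro n
      rw [Ideal.mem_span_singleton, ← AdjoinRoot.mk_eq_zero, ← coeff_map, hmap, coeff_zero]
    rw [Ideal.map_span, Set.image_singleton, Ideal.mem_span_singleton] at hmem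
    obtain ⟨e, he⟩ := hmem
    rw [hdiv, he]
    exact Ideal.mem_span_pair.2 ⟨e, f /ₘ W, by ring⟩
  · rw [Ideal.span_le]
    rintro x (rfl | rfl)
    · show evPt h w (C h) = 0
      rw [evPt_apply, map_C, AdjoinRoot.mk_self, C_0, map_zero]
    · show evPt h w x = 0
      rw [evPt_apply, hWw, AdjoinRoot.mk_self]

theorem card_adjoinRoot {K : Type*} [Field K] [Finite K] {f : K[X]} (hf : f ≠ 0) :
    Nat.card (AdjoinRoot f) = Nat.card K ^ f.natDegree := by
  have hfin : Module.Finite K (AdjoinRoot f) := (AdjoinRoot.powerBasis hf).finite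
  rw [Module.natCard_eq_pow_finrank (K := K) (V := AdjoinRoot f),
    (AdjoinRoot.powerBasis hf).finrank, AdjoinRoot.powerBasis_dim]

theorem exists_pt_Y [Finite k] {l : ℕ} (hl : l.Prime) {p g : k[X][Y]} (hp : Prime p)
    (hdeg : ¬ l ∣ dY p) (hg : ¬ p ∣ g) :
    ∃ (m : Ideal k[X][Y]) (π : k[X][Y]), IsPt l m ∧ p ∈ m ∧ g ∉ m ∧
      Ideal.span {p, π} ⊔ m ^ 2 = m ∧ ∃ g' ∈ m, ¬ p ∣ g' := by
  have hpd : p.natDegree ≠ 0 := by
    intro h0
    apply hdeg
    unfold dY
    rw [h0]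
    exact dvd_zero l
  obtain ⟨δ, hδ, hδm⟩ : ∃ δ : k[X][Y], ¬ p ∣ δ ∧ ∀ m : Ideal k[X][Y], p ∈ m ^ 2 → δ ∈ m := by
    rcases exists_derivative_not_dvd hp with h | h
    · exact ⟨_, h, fun m hm => derivative_mem_of_sq m hm⟩
    · exact ⟨_, h, fun m hm => derX_mem_of_sq m hm⟩
  have hG : ¬ p ∣ g * δ := fun h => (hp.dvd_or_dvd h).elim hg hδ
  obtain ⟨a, b, c, hc, hab⟩ := exists_bezout hp hpd hG
  obtain ⟨r, hrn, hr⟩ := Nat.exists_infinite_primes
    (l + 1 + c.natDegree + p.leadingCoeff.natDegree)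
  obtain ⟨h, hirr, hhd⟩ := exists_irr_degree (k := k) r hr.ne_zero
  have hcnd : ∀ e : k[X], e ≠ 0 → e.natDegree < r → ¬ h ∣ e := by
    intro e he hlt hd
    have := natDegree_le_of_dvd hd he
    omega
  have : Fact (Irreducible h) := ⟨hirr⟩
  have hch : AdjoinRoot.mk h c ≠ 0 := by
    rw [Ne, AdjoinRoot.mk_eq_zero]
    exact hcnd c hc (by omega)
  have hlc : AdjoinRoot.mk h p.leadingCoeff ≠ 0 := by
    rw [Ne, AdjoinRoot.mk_eq_zero]
    exact hcnd _ (leadingCoeff_ne_zero.2 hp.ne_zero) (by omega)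
  have hfin1 : Finite (AdjoinRoot h) := by
    apply Nat.finite_of_card_ne_zero
    rw [card_adjoinRoot hirr.ne_zero]
    exact pow_ne_zero _ Nat.card_pos.ne'
  have hd1 : (p.map (AdjoinRoot.mk h)).natDegree = p.natDegree :=
    natDegree_map_of_leadingCoeff_ne_zero _ hlc
  obtain ⟨w, hwm, hwi, hwd, hwl⟩ := exists_factor_not_dvd (l := l) _
    (p.map (AdjoinRoot.mk h)) le_rfl (by rw [hd1]; exact hdeg)
  have : Fact (Irreducible w) := ⟨hwi⟩
  obtain ⟨W, hker⟩ := ker_evPt hwm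
  have hmax : (RingHom.ker (evPt h w)).IsMaximal :=
    RingHom.ker_isMaximal_of_surjective _ (evPt_surjective h w)
  have hpm : p ∈ RingHom.ker (evPt h w) := by
    rw [RingHom.mem_ker, evPt_apply, AdjoinRoot.mk_eq_zero]
    exact hwd
  have hgδ : evPt h w (g * δ) ≠ 0 := by
    intro h0
    have h1 : evPt h w (C c) = 0 := by
      rw [← hab, map_add, map_mul, map_mul, h0, RingHom.mem_ker.1 hpm, mul_zero, mul_zero,
        add_zero]
    rw [evPt_apply, map_C, AdjoinRoot.mk_C] at h1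
    exact hch ((map_eq_zero _).1 h1)
  rw [map_mul] at hgδ
  have hp2 : p ∉ RingHom.ker (evPt h w) ^ 2 := by
    intro h2
    have := hδm _ h2
    rw [RingHom.mem_ker] at this
    exact hgδ (by rw [this, mul_zero])
  obtain ⟨π, hπ⟩ := exists_param hmax hker hpm hp2
  refine ⟨RingHom.ker (evPt h w), π, ⟨hmax, r * w.natDegree, ?_, ?_⟩, hpm, ?_, hπ, C h, ?_, ?_⟩
  · intro hd
    rcases hl.dvd_or_dvd hd with h1 | h1
    · have := (Nat.prime_dvd_prime_iff_eq hl hr).1 h1
      omega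
    · exact hwl h1
  · rw [Nat.card_congr (RingHom.quotientKerEquivOfSurjective (evPt_surjective h w)).toEquiv,
      card_adjoinRoot hwi.ne_zero, card_adjoinRoot hirr.ne_zero, hhd, ← pow_mul]
  · intro h0
    rw [RingHom.mem_ker] at h0
    exact hgδ (by rw [h0, zero_mul])
  · rw [hker]
    exact Ideal.subset_span (by simp)
  · intro hd
    have := natDegree_le_of_dvd hd (by rw [Ne, C_eq_zero]; exact hirr.ne_zero)
    rw [natDegree_C] at this
    omega

/-- transport of an ideal under the exchange of the variables -/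
noncomputable def swI (m : Ideal k[X][Y]) : Ideal k[X][Y] :=
  m.comap (Bivariate.swap : k[X][Y] ≃ₐ[k] k[X][Y])

theorem mem_swI {m : Ideal k[X][Y]} {f : k[X][Y]} : f ∈ swI m ↔ Bivariate.swap f ∈ m := Iff.rfl

theorem swI_sq_mem {m : Ideal k[X][Y]} {f : k[X][Y]} (hf : f ∈ m ^ 2) :
    Bivariate.swap f ∈ (swI m) ^ 2 := by
  rw [sq] at hf
  refine Submodule.mul_induction_on hf ?_ ?_
  · intro a ha b hb
    rw [map_mul, sq]
    apply Ideal.mul_mem_mul
    · rw [mem_swI, Bivariate.swap_swap_apply]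
      exact ha
    · rw [mem_swI, Bivariate.swap_swap_apply]
      exact hb
  · intro a b ha hb
    rw [map_add]
    exact add_mem ha hb

theorem swI_swI (m : Ideal k[X][Y]) : swI (swI m) = m := by
  ext f
  rw [mem_swI, mem_swI, Bivariate.swap_swap_apply]

theorem span_swI {m : Ideal k[X][Y]} {p π : k[X][Y]} (h : Ideal.span {p, π} ⊔ m ^ 2 = m) :
    Ideal.span {Bivariate.swap p, Bivariate.swap π} ⊔ (swI m) ^ 2 = swI m := by
  have hp : p ∈ m := by rw [← h]; exact Ideal.mem_sup_left (Ideal.subset_span (by simp))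
  have hπ : π ∈ m := by rw [← h]; exact Ideal.mem_sup_left (Ideal.subset_span (by simp))
  apply le_antisymm
  · apply sup_le
    · rw [Ideal.span_le]
      rintro x (rfl | rfl)
      · show _ ∈ swI m
        rw [mem_swI, Bivariate.swap_swap_apply]
        exact hp
      · show _ ∈ swI m
        rw [mem_swI, Bivariate.swap_swap_apply]
        exact hπ
    · exact Ideal.pow_le_self (by norm_num)
  · intro f hf
    rw [mem_swI, ← h, Submodule.mem_sup] at hf
    obtain ⟨x, hx, y, hy, hxy⟩ := hf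
    have h1 : f = Bivariate.swap x + Bivariate.swap y := by
      rw [← map_add, hxy, Bivariate.swap_swap_apply]
    rw [h1]
    refine add_mem (Ideal.mem_sup_left ?_) (Ideal.mem_sup_right (swI_sq_mem hy))
    obtain ⟨a, b, hab⟩ := Ideal.mem_span_pair.1 hx
    rw [← hab, map_add, map_mul, map_mul]
    exact Ideal.mem_span_pair.2 ⟨_, _, rfl⟩

theorem IsPt.swI {l : ℕ} {m : Ideal k[X][Y]} (h : IsPt l m) : IsPt l (swI m) := by
  obtain ⟨hm, r, hr, hc⟩ := h
  have hmax : (Pool.Agent.W_42fc02_h7.swI m).IsMaximal :=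
    Ideal.comap_isMaximal_of_surjective _ (Bivariate.swap : k[X][Y] ≃ₐ[k] k[X][Y]).surjective
  refine ⟨hmax, r, hr, ?_⟩
  rw [← hc]
  refine Nat.card_congr (Ideal.quotientEquiv _ _
    ((Bivariate.swap : k[X][Y] ≃ₐ[k] k[X][Y]) : k[X][Y] ≃+* k[X][Y]) ?_).toEquiv
  apply le_antisymm
  · intro f hf
    have h1 : Bivariate.swap f ∈ Pool.Agent.W_42fc02_h7.swI m := by
      rw [mem_swI, Bivariate.swap_swap_apply]
      exact hf
    have h2 := Ideal.mem_map_of_mem
      (((Bivariate.swap : k[X][Y] ≃ₐ[k] k[X][Y]) : k[X][Y] ≃+* k[X][Y]) :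
        k[X][Y] →+* k[X][Y]) h1
    have h3 : (((Bivariate.swap : k[X][Y] ≃ₐ[k] k[X][Y]) : k[X][Y] ≃+* k[X][Y]) :
        k[X][Y] →+* k[X][Y]) (Bivariate.swap f) = f := Bivariate.swap_swap_apply f
    rwa [h3] at h2
  · rw [Ideal.map_le_iff_le_comap]
    intro f hf
    exact hf

theorem prime_swap {p : k[X][Y]} (hp : Prime p) : Prime (Bivariate.swap p) :=
  (MulEquiv.prime_iff (Bivariate.swap : k[X][Y] ≃ₐ[k] k[X][Y])).2 hp

theorem dvd_swap {p g : k[X][Y]} : Bivariate.swap p ∣ Bivariate.swap g ↔ p ∣ g :=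
  map_dvd_iff (Bivariate.swap : k[X][Y] ≃ₐ[k] k[X][Y])

/-- **Closed points.** -/
theorem exists_pt [Finite k] {l : ℕ} (hl : l.Prime) {p g : k[X][Y]} (hp : Prime p)
    (hdeg : ¬ l ∣ dX p ∨ ¬ l ∣ dY p) (hg : ¬ p ∣ g) :
    ∃ (m : Ideal k[X][Y]) (π : k[X][Y]), IsPt l m ∧ p ∈ m ∧ g ∉ m ∧
      Ideal.span {p, π} ⊔ m ^ 2 = m ∧ ∃ g' ∈ m, ¬ p ∣ g' := by
  rcases hdeg with h | h
  · obtain ⟨m, π, h1, h2, h3, h4, g', h5, h6⟩ := exists_pt_Y hl (prime_swap hp)
      (g := Bivariate.swap g) (by rw [dY_swap]; exact h) (by rw [dvd_swap]; exact hg)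
    refine ⟨swI m, Bivariate.swap π, h1.swI, h2, h3, ?_, Bivariate.swap g', ?_, ?_⟩
    · have := span_swI h4
      rwa [Bivariate.swap_swap_apply] at this
    · rw [mem_swI, Bivariate.swap_swap_apply]
      exact h5
    · rw [← dvd_swap, Bivariate.swap_swap_apply]
      exact h6
  · exact exists_pt_Y hl hp h hg

end

end Pool.Agent.W_42fc02_h7
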