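import Pool.Agent.W_42fc02_h7.Stage

/-!
# The crossing sequence of primes of `k[X][Y]`, `k` a finite field
-/

set_option autoImplicit false

open Polynomial
open scoped Polynomial.Bivariate

namespace Pool.Agent.W_42fc02_h7

section

variable {k : Type*} [Field k]

theorem step_aux [Finite k] {l n : ℕ} (hl : l.Prime) {p : ℕ → k[X][Y]} (hF : Fam l n p)
    {c d : k[X][Y]} (hc : c ≠ 0) (hd : d ≠ 0) (hcd : IsRelPrime c d)
    (hpc : ∀ i, i < n → ¬ p i ∣ c) (hpd : ∀ i, i < n → ¬ p i ∣ d) :
    ∃ p' : ℕ → k[X][Y], Fam l (n + 3) p' ∧ (∀ i, i < n → p' i = p i) ∧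
      ∃ t, p' n = c + d * t ∧ p' (n + 2) = t + c * p' (n + 1) := by
  classical
  set N := (∑ i ∈ Finset.range n, dX (p i)) + dX c + 1 with hN
  have hNle : ∀ i, i < n → dX (p i) < N := by
    intro i hi
    have := Finset.single_le_sum (f := fun i => dX (p i)) (fun _ _ => Nat.zero_le _)
      (Finset.mem_range.2 hi)
    omega
  obtain ⟨t, m₀, π₀, ht, hP, hm₀, hsp₀, hpm₀, hcm₀, hdegP, hNt, hNP, hcrP⟩ :=
    stage1 hl hF hc hd hcd hpd N
  set P := c + d * t with hPdef
  have ht0 : t ≠ 0 := ht.ne_zero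
  have htc : ¬ t ∣ c := fun h => by
    have := dX_le_of_dvd hc h
    omega
  have hrel : IsRelPrime t c := (ht.isRelPrime_iff_not_dvd).2 htc
  have hF1 : Fam l (n + 1) (Function.update p n P) := by
    refine hF.snoc hP.prime (Or.inl hdegP) ?_ hcrP
    intro i hi h
    have := dX_le_of_dvd (hF.prime i hi).ne_zero h.symm.dvd
    have := hNle i hi
    omega
  have hup1 : ∀ i, i < n → Function.update p n P i = p i := fun i hi =>
    Function.update_of_ne (by omega) _ _
  have hun1 : Function.update p n P n = P := Function.update_self _ _ _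
  have hPt : ¬ P ∣ t := by
    intro h
    have h1 : Associated P t := hP.associated_of_dvd ht h
    have h2 : t ∣ c := by
      have h3 : t ∣ c + d * t := h1.symm.dvd
      exact (dvd_add_left (dvd_mul_left t d)).1 h3
    exact htc h2
  have hPc : ¬ P ∣ c := fun h => by
    have := dX_le_of_dvd hc h
    omega
  have hPm₀ : P ∉ m₀ := by
    intro h
    apply hcm₀
    have h1 : c = P - d * t := by rw [hPdef]; ring
    rw [h1]
    exact sub_mem h (Ideal.mul_mem_left _ _ (mem_left_of_span hsp₀))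
  set N' := N + dX P + 1 with hN'
  obtain ⟨v, hv, hQ, hdegv, hdegQ, hNv, hNQ, hvQ, hcrv, hcrQ, hcr₀⟩ :=
    stage2 hl hF1 hc hrel ht0 (by
      intro i hi
      rcases Nat.lt_succ_iff_lt_or_eq.1 hi with h | rfl
      · rw [hup1 i h]; exact hpc i h
      · rw [hun1]; exact hPc) (by
      intro i hi
      rcases Nat.lt_succ_iff_lt_or_eq.1 hi with h | rfl
      · rw [hup1 i h]
        intro hdv
        have h1 : Associated (p i) t := (hF.prime i h).irreducible.associated_of_dvd ht hdv
        have := dX_le_of_dvd (hF.prime i h).ne_zero h1.symm.dvd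
        have := hNle i h
        omega
      · rw [hun1]; exact hPt) hm₀ hsp₀ (by
      intro s hs
      rcases Nat.lt_succ_iff_lt_or_eq.1 hs with h | rfl
      · rw [hup1 s h]; exact hpm₀ s h
      · rw [hun1]; exact hPm₀) N'
  set Q := t + c * v with hQdef
  have hdXle : ∀ i, i < n + 1 → dX (Function.update p n P i) < N' := by
    intro i hi
    rcases Nat.lt_succ_iff_lt_or_eq.1 hi with h | rfl
    · rw [hup1 i h]
      have := hNle i h
      omega
    · rw [hun1]
      omega
  have hF2 : Fam l (n + 2) (Function.update (Function.update p n P) (n + 1) v) := by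
    refine hF1.snoc hv.prime (Or.inl hdegv) ?_ hcrv
    intro i hi h
    have := dX_le_of_dvd (hF1.prime i hi).ne_zero h.symm.dvd
    have := hdXle i hi
    omega
  have hup2 : ∀ i, i < n + 1 → Function.update (Function.update p n P) (n + 1) v i =
      Function.update p n P i := fun i hi => Function.update_of_ne (by omega) _ _
  have hun2 : Function.update (Function.update p n P) (n + 1) v (n + 1) = v :=
    Function.update_self _ _ _
  have hF3 : Fam l (n + 3)
      (Function.update (Function.update (Function.update p n P) (n + 1) v) (n + 2) Q) := by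
    refine hF2.snoc hQ.prime (Or.inr hdegQ) ?_ ?_
    · intro i hi h
      rcases Nat.lt_succ_iff_lt_or_eq.1 hi with h' | rfl
      · rw [hup2 i h'] at h
        have := dX_le_of_dvd (hF1.prime i h').ne_zero h.symm.dvd
        have := hdXle i h'
        omega
      · rw [hun2] at h
        exact hvQ h
    · intro i hi
      rcases Nat.lt_succ_iff_lt_or_eq.1 hi with h' | rfl
      · obtain ⟨m, h1, h2, h3, h4⟩ := hcrQ i h'
        refine ⟨m, h1, by rw [hup2 i h']; exact h2, ?_⟩
        intro s hs hsi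
        rcases Nat.lt_succ_iff_lt_or_eq.1 hs with h'' | rfl
        · rw [hup2 s h'']
          exact h3 s h'' hsi
        · rw [hun2]
          exact h4
      · refine ⟨m₀, hm₀, by rw [hun2]; exact hcr₀, ?_⟩
        intro s hs hsi
        have hs' : s < n + 1 := by omega
        rw [hup2 s hs']
        rcases Nat.lt_succ_iff_lt_or_eq.1 hs' with h | rfl
        · rw [hup1 s h]; exact hpm₀ s h
        · rw [hun1]; exact hPm₀
  refine ⟨_, hF3, ?_, t, ?_, ?_⟩
  · intro i hi
    rw [Function.update_of_ne (by omega), hup2 i (by omega), hup1 i hi]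
  · rw [Function.update_of_ne (by omega), hup2 n (by omega), hun1]
  · rw [Function.update_self, Function.update_of_ne (by omega), hun2]

theorem step [Finite k] {l n : ℕ} (hl : l.Prime) {p : ℕ → k[X][Y]} (hF : Fam l n p)
    (c d : k[X][Y]) :
    ∃ p' : ℕ → k[X][Y], Fam l (n + 3) p' ∧ (∀ i, i < n → p' i = p i) ∧
      (c ≠ 0 → d ≠ 0 → IsRelPrime c d → (∀ i, i < n → ¬ p i ∣ c) → (∀ i, i < n → ¬ p i ∣ d) →
        ∃ t, p' n = c + d * t ∧ p' (n + 2) = t + c * p' (n + 1)) := by
  by_cases h : c ≠ 0 ∧ d ≠ 0 ∧ IsRelPrime c d ∧ (∀ i, i < n → ¬ p i ∣ c) ∧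
      (∀ i, i < n → ¬ p i ∣ d)
  · obtain ⟨hc, hd, hcd, hpc, hpd⟩ := h
    obtain ⟨p', h1, h2, h3⟩ := step_aux hl hF hc hd hcd hpc hpd
    exact ⟨p', h1, h2, fun _ _ _ _ _ => h3⟩
  · have h1 : ∀ i, i < n → ¬ p i ∣ 1 := fun i hi hd =>
      (hF.prime i hi).not_isUnit (isUnit_of_dvd_one hd)
    obtain ⟨p', h1, h2, h3⟩ := step_aux hl hF (c := 1) (d := 1) one_ne_zero one_ne_zero
      isRelPrime_one_right h1 h1
    exact ⟨p', h1, h2, fun a1 a2 a3 a4 a5 => absurd ⟨a1, a2, a3, a4, a5⟩ h⟩

end

/-- **Crossing sequence** (section 8 of the paper proof). `IsPt l m` says that `m` is maximal and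
`Nat.card (k[X][Y] ⧸ m) = Nat.card k ^ r` for some `r` not divisible by `l`. -/
theorem exists_crossing_sequence (k : Type) [Field k] [Finite k] (l : ℕ) (hl : l.Prime) :
    ∃ p : ℕ → k[X][Y], (∀ i, Prime (p i)) ∧ (∀ i j, i ≠ j → ¬ Associated (p i) (p j)) ∧
      (∀ i j, i < j → ∃ m : Ideal k[X][Y], IsPt l m ∧ Ideal.span {p i, p j} ⊔ m ^ 2 = m ∧
        ∀ s, s < j → s ≠ i → p s ∉ m) ∧
      (∀ c d : k[X][Y], c ≠ 0 → d ≠ 0 → IsRelPrime c d → (∀ i, ¬ p i ∣ c) → (∀ i, ¬ p i ∣ d) →
        ∃ (t : k[X][Y]) (a b e : ℕ), p a = c + d * t ∧ p b = t + c * p e) := by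
  classical
  have hcount : Countable (k[X][Y] × k[X][Y]) := by
    have h2 : Countable k[X][Y] := by
      rw [← Set.countable_univ_iff]
      have h3 : (Set.univ : Set k[X][Y]) ⊆ ⋃ n : ℕ, (B k n n : Set k[X][Y]) := by
        intro f _
        rw [Set.mem_iUnion]
        exact ⟨dX f + dY f + 1, B_mono (by omega) (by omega) (exists_mem_B f)⟩
      exact (Set.countable_iUnion fun n => (finite_B n n).countable).mono h3
    infer_instance
  obtain ⟨e, he⟩ := exists_surjective_nat (k[X][Y] × k[X][Y])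
  have hF0 : Fam l 0 (fun _ => (0 : k[X][Y])) :=
    ⟨fun i hi => by omega, fun i hi => by omega, fun i j hi => by omega,
      fun i j hij hj => by omega⟩
  let G : (t : ℕ) → {p : ℕ → k[X][Y] // Fam l (3 * t) p} := fun t =>
    Nat.rec (motive := fun t => {p : ℕ → k[X][Y] // Fam l (3 * t) p}) ⟨fun _ => 0, hF0⟩
      (fun t q => ⟨Classical.choose (step hl q.2 (e t).1 (e t).2),
        (Classical.choose_spec (step hl q.2 (e t).1 (e t).2)).1⟩) t
  have hG : ∀ t, (∀ i, i < 3 * t → (G (t + 1)).1 i = (G t).1 i) ∧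
      ((e t).1 ≠ 0 → (e t).2 ≠ 0 → IsRelPrime (e t).1 (e t).2 →
        (∀ i, i < 3 * t → ¬ (G t).1 i ∣ (e t).1) → (∀ i, i < 3 * t → ¬ (G t).1 i ∣ (e t).2) →
        ∃ u, (G (t + 1)).1 (3 * t) = (e t).1 + (e t).2 * u ∧
          (G (t + 1)).1 (3 * t + 2) = u + (e t).1 * (G (t + 1)).1 (3 * t + 1)) := fun t =>
    (Classical.choose_spec (step hl (G t).2 (e t).1 (e t).2)).2
  have hmono : ∀ t u, t ≤ u → ∀ i, i < 3 * t → (G u).1 i = (G t).1 i := by
    intro t u htu
    induction u, htu using Nat.le_induction with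
    | base => intro i _; rfl
    | succ u htu ih =>
      intro i hi
      rw [(hG u).1 i (by omega)]
      exact ih i hi
  let p : ℕ → k[X][Y] := fun i => (G (i + 1)).1 i
  have hp : ∀ t i, i < 3 * t → (G t).1 i = p i := by
    intro t i hi
    rcases le_total t (i + 1) with h | h
    · exact (hmono t (i + 1) h i hi).symm
    · exact hmono (i + 1) t h i (by omega)
  refine ⟨p, ?_, ?_, ?_, ?_⟩
  · intro i
    exact (G (i + 1)).2.prime i (by omega)
  · intro i j hij
    have h1 := (G (i + j + 1)).2.na i j (by omega) (by omega) hij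
    rwa [hp _ i (by omega), hp _ j (by omega)] at h1
  · intro i j hij
    obtain ⟨m, h1, h2, h3⟩ := (G (j + 1)).2.cross i j hij (by omega)
    rw [hp _ i (by omega), hp _ j (by omega)] at h2
    refine ⟨m, h1, h2, fun s hs hsi => ?_⟩
    have := h3 s hs hsi
    rwa [hp _ s (by omega)] at this
  · intro c d hc hd hcd hpc hpd
    obtain ⟨t, ht⟩ := he (c, d)
    obtain ⟨u, hu1, hu2⟩ := (hG t).2 (by rw [ht]; exact hc) (by rw [ht]; exact hd)
      (by rw [ht]; exact hcd)
      (by intro i hi; rw [ht, hp t i hi]; exact hpc i)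
      (by intro i hi; rw [ht, hp t i hi]; exact hpd i)
    rw [ht, hp _ _ (by omega)] at hu1
    rw [ht, hp _ _ (by omega), hp _ _ (by omega)] at hu2
    exact ⟨u, 3 * t, 3 * t + 2, 3 * t + 1, hu1, hu2⟩

end Pool.Agent.W_42fc02_h7
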