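import Pool.Agent.W_42fc02_h7.Step

/-!
# The two stages of one step of the construction of the crossing sequence
-/

set_option autoImplicit false

open Polynomial
open scoped Polynomial.Bivariate

namespace Pool.Agent.W_42fc02_h7

section

variable {k : Type*} [Field k]

theorem not_dvd_of_modEq {l a b c : ℕ} (hl : 1 < l) (h : a ≡ 1 + (l - 1) * b [MOD l])
    (hc : c = b + a) : ¬ l ∣ c := by
  intro hd
  have h1 : c ≡ b + (1 + (l - 1) * b) [MOD l] := by
    rw [hc]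
    exact Nat.ModEq.add_left b h
  have h2 : b + (1 + (l - 1) * b) = 1 + l * b := by
    obtain ⟨l', rfl⟩ : ∃ l', l = l' + 1 := ⟨l - 1, by omega⟩
    rw [Nat.add_sub_cancel]
    ring
  rw [h2] at h1
  have h3 : 1 + l * b ≡ 1 + 0 [MOD l] :=
    Nat.ModEq.add_left 1 ((Nat.modEq_zero_iff_dvd).2 (Dvd.intro _ rfl))
  have h4 : c ≡ 0 [MOD l] := (Nat.modEq_zero_iff_dvd).2 hd
  have h5 : 0 ≡ 1 [MOD l] := h4.symm.trans (h1.trans h3)
  rw [Nat.ModEq, Nat.zero_mod, Nat.mod_eq_of_lt hl] at h5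
  omega

/-- inverse modulo `m ^ 2` -/
theorem exists_inv_sq {R : Type*} [CommRing R] {m : Ideal R} (hm : m.IsMaximal) {c : R}
    (hc : c ∉ m) : ∃ y, c * y - 1 ∈ m ^ 2 := by
  have := hm
  obtain ⟨y, i, hi, h⟩ := Ideal.IsMaximal.exists_inv_pow m hc 2
  refine ⟨y, ?_⟩
  have : c * y - 1 = -i := by linear_combination h
  rw [this]
  exact neg_mem hi

theorem stage1 [Finite k] {l n : ℕ} (hl : l.Prime) {p : ℕ → k[X][Y]} (hF : Fam l n p)
    {c d : k[X][Y]} (hc : c ≠ 0) (hd : d ≠ 0) (hcd : IsRelPrime c d)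
    (hpd : ∀ i, i < n → ¬ p i ∣ d) (N : ℕ) :
    ∃ (t : k[X][Y]) (m₀ : Ideal k[X][Y]) (π₀ : k[X][Y]), Irreducible t ∧
      Irreducible (c + d * t) ∧ IsPt l m₀ ∧ Ideal.span {t, π₀} ⊔ m₀ ^ 2 = m₀ ∧
      (∀ s, s < n → p s ∉ m₀) ∧ c ∉ m₀ ∧ ¬ l ∣ dX (c + d * t) ∧ N ≤ dX t ∧
      N ≤ dX (c + d * t) ∧
      (∀ i, i < n → ∃ m : Ideal k[X][Y], IsPt l m ∧
        Ideal.span {p i, c + d * t} ⊔ m ^ 2 = m ∧ ∀ s, s < n → s ≠ i → p s ∉ m) := by
  classical
  obtain ⟨m, π, g', hm⟩ := hF.pts hl (fun _ => d) hpd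
  have hg0 : c * ∏ s ∈ Finset.range n, p s ≠ 0 := by
    refine mul_ne_zero hc (Finset.prod_ne_zero_iff.2 fun s hs => ?_)
    exact (hF.prime s (Finset.mem_range.1 hs)).ne_zero
  obtain ⟨m₀, τ, π₀, hm₀, hgm₀, hsp₀⟩ := exists_base_pt hl hg0
  have hpm₀ : ∀ s, s < n → p s ∉ m₀ := by
    intro s hs h
    apply hgm₀
    apply m₀.mul_mem_left
    exact Ideal.mem_of_dvd m₀ (Finset.dvd_prod_of_mem p (Finset.mem_range.2 hs)) h
  have hcm₀ : c ∉ m₀ := fun h => hgm₀ (m₀.mul_mem_right _ h)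
  have hy : ∀ i : Fin n, ∃ y, d * y - 1 ∈ (m i) ^ 2 := fun i =>
    exists_inv_sq (hm i i.2).1.1 (hm i i.2).2.2.1
  choose y hy using hy
  let M : Option (Fin n) → Ideal k[X][Y] := fun o => o.elim m₀ (fun i => m i)
  let A : Option (Fin n) → k[X][Y] := fun o => o.elim τ (fun i => y i * (π i - c))
  have hM : ∀ o, IsPt l (M o) := by
    rintro (_ | i)
    · exact hm₀
    · exact (hm i i.2).1
  have hne : ∀ o o', o ≠ o' → M o ≠ M o' := by
    rintro (_ | i) (_ | j) h heq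
    · exact h rfl
    · apply hpm₀ j j.2
      have : m₀ = m j := heq
      rw [this]
      exact (hm j j.2).2.1
    · apply hpm₀ i i.2
      have : m i = m₀ := heq
      rw [← this]
      exact (hm i i.2).2.1
    · have hij : (i : ℕ) ≠ j := fun h' => h (by rw [Fin.ext h'])
      apply (hm j j.2).2.2.2.2.1 i i.2 hij
      have : m i = m j := heq
      rw [← this]
      exact (hm i i.2).2.1
  obtain ⟨t, ht1, ht2, ht3, -, ht5, -⟩ := crt M hM hne A {(0, 1), (c, d)} (by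
    intro q hq
    rw [Finset.mem_insert, Finset.mem_singleton] at hq
    rcases hq with rfl | rfl
    · exact ⟨one_ne_zero, isRelPrime_one_right⟩
    · exact ⟨hd, hcd⟩) hl.one_lt.le (1 + (l - 1) * dX d) 0 (N + dX c + 1)
  have hirr : Irreducible t := by
    have := ht2 (0, 1) (by simp)
    simpa using this
  have hP : Irreducible (c + d * t) := ht2 (c, d) (by simp)
  have hdeg : dX (c + d * t) = dX d + dX t := by
    rw [← dX_mul hd hirr.ne_zero]
    apply dX_add_of_lt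
    rw [dX_mul hd hirr.ne_zero]
    omega
  have htτ : t - τ ∈ m₀ ^ 2 := ht1 none
  refine ⟨t, m₀, π₀, hirr, hP, hm₀, span_congr_left hsp₀ htτ, hpm₀, hcm₀,
    not_dvd_of_modEq hl.one_lt ht3 hdeg, by omega, by omega, ?_⟩
  intro i hi
  refine ⟨m i, (hm i hi).1, ?_, (hm i hi).2.2.2.2.1⟩
  apply span_congr_right (hm i hi).2.2.2.1
  have h1 : t - y ⟨i, hi⟩ * (π i - c) ∈ (m i) ^ 2 := ht1 (some ⟨i, hi⟩)
  have h2 : d * y ⟨i, hi⟩ - 1 ∈ (m i) ^ 2 := hy ⟨i, hi⟩
  have h3 : c + d * t - π i = d * (t - y ⟨i, hi⟩ * (π i - c)) +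
      (π i - c) * (d * y ⟨i, hi⟩ - 1) := by ring
  rw [h3]
  exact add_mem (Ideal.mul_mem_left _ _ h1) (Ideal.mul_mem_left _ _ h2)

theorem stage2 [Finite k] {l n : ℕ} (hl : l.Prime) {p : ℕ → k[X][Y]} (hF : Fam l n p)
    {c t : k[X][Y]} (hc : c ≠ 0) (htc : IsRelPrime t c) (ht : t ≠ 0)
    (hpc : ∀ i, i < n → ¬ p i ∣ c) (hpt : ∀ i, i < n → ¬ p i ∣ t)
    {m₀ : Ideal k[X][Y]} {π₀ : k[X][Y]} (hm₀ : IsPt l m₀)
    (hsp₀ : Ideal.span {t, π₀} ⊔ m₀ ^ 2 = m₀) (hpm₀ : ∀ s, s < n → p s ∉ m₀) (N : ℕ) :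
    ∃ v : k[X][Y], Irreducible v ∧ Irreducible (t + c * v) ∧ ¬ l ∣ dX v ∧
      ¬ l ∣ dY (t + c * v) ∧ N ≤ dX v ∧ N ≤ dX (t + c * v) ∧ ¬ Associated v (t + c * v) ∧
      (∀ i, i < n → ∃ m : Ideal k[X][Y], IsPt l m ∧
        Ideal.span {p i, v} ⊔ m ^ 2 = m ∧ ∀ s, s < n → s ≠ i → p s ∉ m) ∧
      (∀ i, i < n → ∃ m : Ideal k[X][Y], IsPt l m ∧
        Ideal.span {p i, t + c * v} ⊔ m ^ 2 = m ∧ (∀ s, s < n → s ≠ i → p s ∉ m) ∧ v ∉ m) ∧
      (Ideal.span {v, t + c * v} ⊔ m₀ ^ 2 = m₀) := by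
  classical
  obtain ⟨m, π, g', hm⟩ := hF.pts hl (fun _ => 1)
    (fun i hi h => (hF.prime i hi).not_isUnit (isUnit_of_dvd_one h))
  obtain ⟨m', π', g'', hm'⟩ := hF.pts hl (fun i => c * t * g' i) (by
    intro i hi h
    rcases (hF.prime i hi).dvd_or_dvd h with h | h
    · rcases (hF.prime i hi).dvd_or_dvd h with h | h
      · exact hpc i hi h
      · exact hpt i hi h
    · exact (hm i hi).2.2.2.2.2.2 h)
  have hcm' : ∀ i, i < n → c ∉ m' i := fun i hi h =>
    (hm' i hi).2.2.1 (Ideal.mul_mem_right _ _ (Ideal.mul_mem_right _ _ h))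
  have htm' : ∀ i, i < n → t ∉ m' i := fun i hi h =>
    (hm' i hi).2.2.1 (Ideal.mul_mem_right _ _ (Ideal.mul_mem_left _ _ h))
  have hgm' : ∀ i, i < n → g' i ∉ m' i := fun i hi h =>
    (hm' i hi).2.2.1 (Ideal.mul_mem_left _ _ h)
  have hy : ∀ i : Fin n, ∃ y, c * y - 1 ∈ (m' i) ^ 2 := fun i =>
    exists_inv_sq (hm' i i.2).1.1 (hcm' i i.2)
  choose y hy using hy
  let M : Option (Fin n ⊕ Fin n) → Ideal k[X][Y] := fun o =>
    o.elim m₀ (fun s => Sum.elim (fun i : Fin n => m i) (fun i : Fin n => m' i) s)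
  let A : Option (Fin n ⊕ Fin n) → k[X][Y] := fun o =>
    o.elim π₀ (fun s => Sum.elim (fun i : Fin n => π i) (fun i : Fin n => y i * (π' i - t)) s)
  have hM : ∀ o, IsPt l (M o) := by
    rintro (_ | i | i)
    · exact hm₀
    · exact (hm i i.2).1
    · exact (hm' i i.2).1
  have hne : ∀ o o', o ≠ o' → M o ≠ M o' := by
    have key : ∀ o o', M o = M o' → o = o' := by
      rintro (_ | i | i) (_ | j | j) heq
      · rfl
      · exfalso
        apply hpm₀ j j.2
        have : m₀ = m j := heq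
        rw [this]
        exact (hm j j.2).2.1
      · exfalso
        apply hpm₀ j j.2
        have : m₀ = m' j := heq
        rw [this]
        exact (hm' j j.2).2.1
      · exfalso
        apply hpm₀ i i.2
        have : m i = m₀ := heq
        rw [← this]
        exact (hm i i.2).2.1
      · by_contra h
        have hij : (i : ℕ) ≠ j := fun h' => h (by rw [Fin.ext h'])
        apply (hm j j.2).2.2.2.2.1 i i.2 hij
        have : m i = m j := heq
        rw [← this]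
        exact (hm i i.2).2.1
      · exfalso
        have heq' : m i = m' j := heq
        by_cases hij : (i : ℕ) = j
        · apply hgm' j j.2
          rw [← heq', hij]
          exact (hm j j.2).2.2.2.2.2.1
        · apply (hm' j j.2).2.2.2.2.1 i i.2 hij
          rw [← heq']
          exact (hm i i.2).2.1
      · exfalso
        apply hpm₀ i i.2
        have : m' i = m₀ := heq
        rw [← this]
        exact (hm' i i.2).2.1
      · exfalso
        have heq' : m' i = m j := heq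
        by_cases hij : (i : ℕ) = j
        · apply hgm' i i.2
          rw [heq', hij]
          exact (hm j j.2).2.2.2.2.2.1
        · apply (hm j j.2).2.2.2.2.1 i i.2 hij
          rw [← heq']
          exact (hm' i i.2).2.1
      · by_contra h
        have hij : (i : ℕ) ≠ j := fun h' => h (by rw [Fin.ext h'])
        apply (hm' j j.2).2.2.2.2.1 i i.2 hij
        have : m' i = m' j := heq
        rw [← this]
        exact (hm' i i.2).2.1
    exact fun o o' h h' => h (key o o' h')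
  obtain ⟨v, hv1, hv2, hv3, hv4, hv5, hv6⟩ := crt M hM hne A {(0, 1), (t, c)} (by
    intro q hq
    rw [Finset.mem_insert, Finset.mem_singleton] at hq
    rcases hq with rfl | rfl
    · exact ⟨one_ne_zero, isRelPrime_one_right⟩
    · exact ⟨hc, htc⟩) hl.one_lt.le (1 + (l - 1) * 0) (1 + (l - 1) * dY c)
      (N + dX t + dY t + 1)
  have hirr : Irreducible v := by
    have := hv2 (0, 1) (by simp)
    simpa using this
  have hP : Irreducible (t + c * v) := hv2 (t, c) (by simp)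
  have hdX : dX (t + c * v) = dX c + dX v := by
    rw [← dX_mul hc hirr.ne_zero]
    apply dX_add_of_lt
    rw [dX_mul hc hirr.ne_zero]
    omega
  have hdY : dY (t + c * v) = dY c + dY v := by
    rw [← dY_mul hc hirr.ne_zero]
    apply dY_add_of_lt
    rw [dY_mul hc hirr.ne_zero]
    omega
  refine ⟨v, hirr, hP, not_dvd_of_modEq hl.one_lt hv3 (by omega),
    not_dvd_of_modEq hl.one_lt hv4 hdY, by omega, by omega, ?_, ?_, ?_, ?_⟩
  · intro h
    have h1 : v ∣ t := (dvd_add_left (dvd_mul_left v c)).1 h.dvd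
    have := dX_le_of_dvd ht h1
    omega
  · intro i hi
    refine ⟨m i, (hm i hi).1, ?_, (hm i hi).2.2.2.2.1⟩
    exact span_congr_right (hm i hi).2.2.2.1 (hv1 (some (Sum.inl ⟨i, hi⟩)))
  · intro i hi
    have h1 : v - y ⟨i, hi⟩ * (π' i - t) ∈ (m' i) ^ 2 := hv1 (some (Sum.inr ⟨i, hi⟩))
    have h2 : c * y ⟨i, hi⟩ - 1 ∈ (m' i) ^ 2 := hy ⟨i, hi⟩
    have hsq : (m' i) ^ 2 ≤ m' i := Ideal.pow_le_self (by norm_num)
    refine ⟨m' i, (hm' i hi).1, ?_, (hm' i hi).2.2.2.2.1, ?_⟩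
    · apply span_congr_right (hm' i hi).2.2.2.1
      have h3 : t + c * v - π' i = c * (v - y ⟨i, hi⟩ * (π' i - t)) +
          (π' i - t) * (c * y ⟨i, hi⟩ - 1) := by ring
      rw [h3]
      exact add_mem (Ideal.mul_mem_left _ _ h1) (Ideal.mul_mem_left _ _ h2)
    · intro hv
      apply htm' i hi
      have hπ' : π' i ∈ m' i := mem_right_of_span (hm' i hi).2.2.2.1
      have h4 : t = (π' i - c * v) + (c * (v - y ⟨i, hi⟩ * (π' i - t)) +
          (π' i - t) * (c * y ⟨i, hi⟩ - 1)) := by ring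
      rw [h4]
      exact add_mem (sub_mem hπ' (Ideal.mul_mem_left _ _ hv))
        (add_mem (Ideal.mul_mem_left _ _ (hsq h1)) (Ideal.mul_mem_left _ _ (hsq h2)))
  · have h1 : Ideal.span {t, v} ⊔ m₀ ^ 2 = m₀ := span_congr_right hsp₀ (hv1 none)
    have h2 : Ideal.span {v, t + c * v} = Ideal.span {t, v} := by
      rw [Ideal.span_pair_add_mul_left, Ideal.span_pair_comm]
    rw [h2]
    exact h1

end

end Pool.Agent.W_42fc02_h7
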