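import Pool.Agent.W_42fc02_h7.Ex
import Pool.Agent.W_42fc02_h7.Pt2

/-!
# One step of the construction of the crossing sequence
-/

set_option autoImplicit false

open Polynomial
open scoped Polynomial.Bivariate

namespace Pool.Agent.W_42fc02_h7

section

variable {k : Type*} [Field k]

/-- Chinese remainder theorem combined with `exists_good`. -/
theorem crt [Finite k] {ι : Type} [Finite ι] {l : ℕ} (m : ι → Ideal k[X][Y])
    (hm : ∀ i, IsPt l (m i)) (hne : ∀ i j, i ≠ j → m i ≠ m j) (a : ι → k[X][Y])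
    (L : Finset (k[X][Y] × k[X][Y])) (hL : ∀ p ∈ L, p.2 ≠ 0 ∧ IsRelPrime p.1 p.2)
    (hl : 1 ≤ l) (α β N₁ : ℕ) :
    ∃ s : k[X][Y], (∀ i, s - a i ∈ (m i) ^ 2) ∧ (∀ p ∈ L, Irreducible (p.1 + p.2 * s)) ∧
      dX s ≡ α [MOD l] ∧ dY s ≡ β [MOD l] ∧ N₁ ≤ dX s ∧ N₁ ≤ dY s := by
  have hcop : Pairwise (Function.onFun IsCoprime fun i => (m i) ^ 2) := by
    intro i j hij
    have := (hm i).1
    have := (hm j).1
    exact (Ideal.isCoprime_of_isMaximal (hne i j hij)).pow
  obtain ⟨s₀, hs₀⟩ := Ideal.pi_quotient_surjective hcop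
    (fun i => Ideal.Quotient.mk ((m i) ^ 2) (a i))
  have hfin : Finite (k[X][Y] ⧸ ⨅ i, (m i) ^ 2) := by
    have h1 : ∀ i, Finite (k[X][Y] ⧸ (m i) ^ 2) := by
      intro i
      have := (hm i).finite
      exact Ideal.finite_quotient_pow (IsNoetherian.noetherian (m i)) 2
    exact Finite.of_injective _ (Ideal.quotientInfToPiQuotient_inj fun i => (m i) ^ 2)
  obtain ⟨s, h1, h2, h3, h4, h5, h6⟩ := exists_good (⨅ i, (m i) ^ 2) s₀ L hL hl α β N₁
  refine ⟨s, fun i => ?_, h2, h3, h4, h5, h6⟩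
  have h7 : s - s₀ ∈ (m i) ^ 2 := (Ideal.mem_iInf.1 h1) i
  have h8 : s₀ - a i ∈ (m i) ^ 2 := (Ideal.Quotient.eq).1 (hs₀ i)
  have : s - a i = (s - s₀) + (s₀ - a i) := by ring
  rw [this]
  exact add_mem h7 h8

/-- replace the second generator modulo `m ^ 2` -/
theorem span_congr_right {R : Type*} [CommRing R] {m : Ideal R} {p π π' : R}
    (h : Ideal.span {p, π} ⊔ m ^ 2 = m) (hπ : π' - π ∈ m ^ 2) :
    Ideal.span {p, π'} ⊔ m ^ 2 = m := by
  have hp : p ∈ m := by rw [← h]; exact Ideal.mem_sup_left (Ideal.subset_span (by simp))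
  have hπm : π ∈ m := by rw [← h]; exact Ideal.mem_sup_left (Ideal.subset_span (by simp))
  have hsq : m ^ 2 ≤ m := Ideal.pow_le_self (by norm_num)
  have hπ'm : π' ∈ m := by
    have : π' = (π' - π) + π := by ring
    rw [this]
    exact add_mem (hsq hπ) hπm
  apply le_antisymm
  · apply sup_le _ hsq
    rw [Ideal.span_le]
    rintro x (rfl | rfl)
    · exact hp
    · exact hπ'm
  · conv_lhs => rw [← h]
    apply sup_le _ le_sup_right
    rw [Ideal.span_le]
    rintro x (rfl | rfl)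
    · exact Ideal.mem_sup_left (Ideal.subset_span (by simp))
    · have : x = π' + -(π' - x) := by ring
      rw [this]
      exact add_mem (Ideal.mem_sup_left (Ideal.subset_span (by simp)))
        (Ideal.mem_sup_right (neg_mem hπ))

theorem span_congr_left {R : Type*} [CommRing R] {m : Ideal R} {p p' π : R}
    (h : Ideal.span {p, π} ⊔ m ^ 2 = m) (hp : p' - p ∈ m ^ 2) :
    Ideal.span {p', π} ⊔ m ^ 2 = m := by
  rw [Ideal.span_pair_comm] at h ⊢
  exact span_congr_right h hp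

theorem mem_left_of_span {R : Type*} [CommRing R] {m : Ideal R} {p π : R}
    (h : Ideal.span {p, π} ⊔ m ^ 2 = m) : p ∈ m := by
  rw [← h]
  exact Ideal.mem_sup_left (Ideal.subset_span (by simp))

theorem mem_right_of_span {R : Type*} [CommRing R] {m : Ideal R} {p π : R}
    (h : Ideal.span {p, π} ⊔ m ^ 2 = m) : π ∈ m := by
  rw [← h]
  exact Ideal.mem_sup_left (Ideal.subset_span (by simp))

/-- The invariant of the construction. -/
structure Fam (l n : ℕ) (p : ℕ → k[X][Y]) : Prop where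
  prime : ∀ i, i < n → Prime (p i)
  deg : ∀ i, i < n → ¬ l ∣ dX (p i) ∨ ¬ l ∣ dY (p i)
  na : ∀ i j, i < n → j < n → i ≠ j → ¬ Associated (p i) (p j)
  cross : ∀ i j, i < j → j < n → ∃ m : Ideal k[X][Y], IsPt l m ∧
    Ideal.span {p i, p j} ⊔ m ^ 2 = m ∧ ∀ s, s < j → s ≠ i → p s ∉ m

theorem Fam.snoc {l n : ℕ} {p : ℕ → k[X][Y]} (hF : Fam l n p) {P : k[X][Y]} (hP : Prime P)
    (hdeg : ¬ l ∣ dX P ∨ ¬ l ∣ dY P) (hna : ∀ i, i < n → ¬ Associated (p i) P)
    (hcr : ∀ i, i < n → ∃ m : Ideal k[X][Y], IsPt l m ∧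
      Ideal.span {p i, P} ⊔ m ^ 2 = m ∧ ∀ s, s < n → s ≠ i → p s ∉ m) :
    Fam l (n + 1) (Function.update p n P) := by
  have hup : ∀ i, i < n → Function.update p n P i = p i := fun i hi =>
    Function.update_of_ne (by omega) _ _
  have hun : Function.update p n P n = P := Function.update_self _ _ _
  refine ⟨?_, ?_, ?_, ?_⟩
  · intro i hi
    rcases Nat.lt_succ_iff_lt_or_eq.1 hi with h | rfl
    · rw [hup i h]; exact hF.prime i h
    · rw [hun]; exact hP
  · intro i hi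
    rcases Nat.lt_succ_iff_lt_or_eq.1 hi with h | rfl
    · rw [hup i h]; exact hF.deg i h
    · rw [hun]; exact hdeg
  · intro i j hi hj hij
    rcases Nat.lt_succ_iff_lt_or_eq.1 hi with h | rfl
    · rcases Nat.lt_succ_iff_lt_or_eq.1 hj with h' | rfl
      · rw [hup i h, hup j h']; exact hF.na i j h h' hij
      · rw [hup i h, hun]; exact hna i h
    · rcases Nat.lt_succ_iff_lt_or_eq.1 hj with h' | rfl
      · rw [hup j h', hun]; exact fun h => hna j h' h.symm
      · exact absurd rfl hij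
  · intro i j hij hj
    rcases Nat.lt_succ_iff_lt_or_eq.1 hj with h | rfl
    · obtain ⟨m, h1, h2, h3⟩ := hF.cross i j hij h
      refine ⟨m, h1, by rw [hup i (by omega), hup j h]; exact h2, fun s hs hsi => ?_⟩
      rw [hup s (by omega)]
      exact h3 s hs hsi
    · obtain ⟨m, h1, h2, h3⟩ := hcr i hij
      refine ⟨m, h1, by rw [hup i hij, hun]; exact h2, fun s hs hsi => ?_⟩
      rw [hup s hs]
      exact h3 s hs hsi

/-- Points on all the curves of the family. -/
theorem Fam.pts [Finite k] {l n : ℕ} (hl : l.Prime) {p : ℕ → k[X][Y]} (hF : Fam l n p)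
    (g : ℕ → k[X][Y]) (hg : ∀ i, i < n → ¬ p i ∣ g i) :
    ∃ (m : ℕ → Ideal k[X][Y]) (π : ℕ → k[X][Y]) (g' : ℕ → k[X][Y]), ∀ i, i < n →
      IsPt l (m i) ∧ p i ∈ m i ∧ g i ∉ m i ∧ Ideal.span {p i, π i} ⊔ (m i) ^ 2 = m i ∧
      (∀ s, s < n → s ≠ i → p s ∉ m i) ∧ g' i ∈ m i ∧ ¬ p i ∣ g' i := by
  classical
  have h1 : ∀ i, ∃ (m : Ideal k[X][Y]) (π g' : k[X][Y]), i < n →
      IsPt l m ∧ p i ∈ m ∧ g i ∉ m ∧ Ideal.span {p i, π} ⊔ m ^ 2 = m ∧
      (∀ s, s < n → s ≠ i → p s ∉ m) ∧ g' ∈ m ∧ ¬ p i ∣ g' := by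
    intro i
    by_cases hi : i < n
    · have hpi := hF.prime i hi
      have hnd : ¬ p i ∣ g i * ∏ s ∈ (Finset.range n).erase i, p s := by
        intro hd
        rcases hpi.dvd_or_dvd hd with h | h
        · exact hg i hi h
        · obtain ⟨s, hs, hds⟩ := (hpi.dvd_finsetProd_iff _).1 h
          rw [Finset.mem_erase, Finset.mem_range] at hs
          exact hF.na i s hi hs.2 hs.1.symm
            (hpi.irreducible.associated_of_dvd (hF.prime s hs.2).irreducible hds)
      obtain ⟨m, π, h1, h2, h3, h4, g', h5, h6⟩ := exists_pt hl hpi (hF.deg i hi) hnd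
      refine ⟨m, π, g', fun _ => ⟨h1, h2, fun h => h3 (m.mul_mem_right _ h), h4, ?_, h5, h6⟩⟩
      intro s hs hsi h
      apply h3
      apply m.mul_mem_left
      exact Ideal.mem_of_dvd m (Finset.dvd_prod_of_mem p
        (Finset.mem_erase.2 ⟨hsi, Finset.mem_range.2 hs⟩)) h
    · exact ⟨⊥, 0, 0, fun h => absurd h hi⟩
  choose m π g' h using h1
  exact ⟨m, π, g', h⟩

/-- For every nonzero polynomial there is a point of degree prime to `l` off its zero set, with a
given parameter. -/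
theorem exists_base_pt [Finite k] {l : ℕ} (hl : l.Prime) {g : k[X][Y]} (hg : g ≠ 0) :
    ∃ (m : Ideal k[X][Y]) (τ π : k[X][Y]), IsPt l m ∧ g ∉ m ∧ Ideal.span {τ, π} ⊔ m ^ 2 = m := by
  have hex : ∃ e : ℕ, ¬ g.IsRoot (X ^ e) := by
    by_contra hcon
    push Not at hcon
    have hinj : Function.Injective (fun e : ℕ => (X ^ e : k[X])) := by
      intro a b hab
      have := congrArg natDegree hab
      simpa using this
    have h1 := Set.infinite_of_injective_forall_mem hinj (s := {x | g.IsRoot x}) hcon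
    exact h1 (Polynomial.finite_setOfPred_isRoot hg)
  obtain ⟨e, he⟩ := hex
  have hprime : Prime (X - C (X ^ e) : k[X][Y]) := prime_X_sub_C _
  have hdY : dY (X - C (X ^ e) : k[X][Y]) = 1 := natDegree_X_sub_C _
  obtain ⟨m, π, h1, -, h3, h4, -⟩ := exists_pt hl hprime
    (Or.inr (by rw [hdY]; exact fun h => hl.one_lt.ne' (Nat.dvd_one.1 h)))
    (g := g) (by rw [dvd_iff_isRoot]; exact he)
  exact ⟨m, _, π, h1, h3, h4⟩

end

end Pool.Agent.W_42fc02_h7
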